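import Pool.Agent.TH915.PW.ExpC
import Pool.Agent.TH915.PW.Dioph
import Pool.Agent.Y961.JR.Class

set_option autoImplicit false

/-! # Weyl sums of real polynomials over progressions

The lemmas of this file are copied from `Pool.Agent.TH915.PW.Poly`, `Smooth`, `PolyMain` (helper915) and
`Pool.Agent.N534.PG.Weyl` (helper534); these files cannot be imported together with `Pool.Agent.N542.PT`. -/

namespace Pool.Agent.L7h72.NQ

open Finset Filter
open Pool.Agent.H469R2.NK (e norm_e e_add Cq Cq_pos)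
open Pool.Agent.TH915.PW (Hy exp_boundC e_int)

lemma iter_top (g : Polynomial ℝ) (k : ℕ) (hg : g.natDegree ≤ k) (x : ℝ) :
    (Polynomial.derivative^[k] g).eval x = k.factorial * g.coeff k := by
  have h1 : (Polynomial.derivative^[k] g).natDegree = 0 := by
    have := Polynomial.natDegree_iterate_derivative g k
    omega
  rw [Polynomial.eq_C_of_natDegree_eq_zero h1, Polynomial.eval_C,
    Polynomial.coeff_iterate_derivative, zero_add, Nat.descFactorial_self, nsmul_eq_mul]

lemma poly_phase (g : Polynomial ℝ) (k : ℕ) (hg : g.natDegree ≤ k + 1) (s w b A B : ℝ) :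
    Hy k A B (s * b ^ (k + 1) * ((k + 1).factorial * g.coeff (k + 1)))
      (s * b ^ (k + 1) * ((k + 1).factorial * g.coeff (k + 1)))
      (fun i t => s * b ^ i * (Polynomial.derivative^[i] g).eval (w + b * t)) := by
  refine ⟨?_, ?_, ?_, ?_⟩
  · intro m _ t _
    have h1 : HasDerivAt (fun t : ℝ => w + b * t) b t := by
      simpa using ((hasDerivAt_id t).const_mul b).const_add w
    have h2 := ((Polynomial.derivative^[m] g).hasDerivAt (w + b * t)).comp t h1
    have h3 := h2.const_mul (s * b ^ m)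
    rw [← Function.iterate_succ_apply' Polynomial.derivative m g] at h3
    refine h3.congr_deriv ?_
    rw [pow_succ]
    ring
  · intro t _
    rw [iter_top g (k + 1) hg]
  · intro t _
    rw [iter_top g (k + 1) hg]
  · intro t _
    have : Polynomial.derivative^[k + 2] g = 0 :=
      Polynomial.iterate_derivative_eq_zero (by omega)
    rw [this]
    simp


/-- splitting a sum into residue classes -/
lemma norm_split (G : ℕ → ℂ) (L B : ℕ) (hB : 0 < B) (T : ℝ)
    (h : ∀ r < B, ‖∑ m ∈ range ((L + (B - 1 - r)) / B), G (r + B * m)‖ ≤ T) :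
    ‖∑ n ∈ range L, G n‖ ≤ B * T := by
  have h1 : ∑ n ∈ range L, G n = ∑ r ∈ range B, ∑ n ∈ (range L).filter (fun n => n % B = r), G n := by
    rw [Finset.sum_fiberwise_of_maps_to]
    intro n _
    exact mem_range.mpr (Nat.mod_lt _ hB)
  rw [h1]
  refine (norm_sum_le _ _).trans ?_
  have h2 : ∀ r ∈ range B, ‖∑ n ∈ (range L).filter (fun n => n % B = r), G n‖ ≤ T := by
    intro r hr
    rw [mem_range] at hr
    refine le_trans (le_of_eq ?_) (h r hr)
    congr 1
    symm
    apply Finset.sum_nbij' (fun m => r + B * m) (fun n => n / B)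
    · intro m hm
      rw [mem_range, Nat.lt_div_iff_mul_lt hB] at hm
      rw [Finset.mem_filter, mem_range, Nat.add_mul_mod_self_left, Nat.mod_eq_of_lt hr]
      refine ⟨?_, rfl⟩
      have := Nat.mul_comm m B
      omega
    · intro n hn
      rw [Finset.mem_filter, mem_range] at hn
      rw [mem_range, Nat.lt_div_iff_mul_lt hB]
      have h3 := Nat.div_add_mod n B
      rw [hn.2] at h3
      have := Nat.mul_comm (n / B) B
      omega
    · intro m _
      rw [Nat.add_mul_div_left _ _ hB, Nat.div_eq_of_lt hr, zero_add]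
    · intro n hn
      rw [Finset.mem_filter] at hn
      have h3 := Nat.div_add_mod n B
      rw [hn.2] at h3
      omega
    · intro m _
      rfl
  refine (Finset.sum_le_sum h2).trans ?_
  rw [sum_const, card_range, nsmul_eq_mul]


lemma root_le (x y : ℝ) (k : ℕ) (hx : 0 ≤ x) (h : x ^ (2 ^ k) ≤ y) : x ≤ y ^ ((1 : ℝ) / 2 ^ k) := by
  have h1 : x = (x ^ (2 ^ k)) ^ ((1 : ℝ) / 2 ^ k) := by
    rw [← Real.rpow_natCast, ← Real.rpow_mul hx]
    push_cast
    rw [mul_one_div_cancel (by positivity), Real.rpow_one]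
  rw [h1]
  exact Real.rpow_le_rpow (by positivity) h (by positivity)


lemma top_irrational (f : Polynomial ℝ) (h : ∃ i, 1 ≤ i ∧ Irrational (f.coeff i)) :
    ∃ k, Irrational (f.coeff (k + 1)) ∧ (∀ i, k + 1 < i → ∃ r : ℚ, f.coeff i = r) ∧
      1 ≤ f.natDegree := by
  classical
  obtain ⟨i₀, hi₀, hirr⟩ := h
  have hle : ∀ i, Irrational (f.coeff i) → i ≤ f.natDegree := by
    intro i hi
    by_contra hcon
    push Not at hcon
    rw [Polynomial.coeff_eq_zero_of_natDegree_lt hcon] at hi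
    exact hi ⟨0, by simp⟩
  set m := Nat.findGreatest (fun i => Irrational (f.coeff i)) f.natDegree with hm
  have h1 : Irrational (f.coeff m) := Nat.findGreatest_spec (P := fun i => Irrational (f.coeff i))
    (hle i₀ hirr) hirr
  have h2 : i₀ ≤ m := Nat.le_findGreatest (hle i₀ hirr) hirr
  obtain ⟨k, hk⟩ : ∃ k, m = k + 1 := ⟨m - 1, by omega⟩
  refine ⟨k, by rw [← hk]; exact h1, ?_, by have := hle m h1; omega⟩
  intro i hi
  by_contra hcon
  have h3 : Irrational (f.coeff i) := by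
    rintro ⟨r, hr⟩
    exact hcon ⟨r, hr.symm⟩
  have h4 : i ≤ m := Nat.le_findGreatest (hle i h3) h3
  omega


/-- splitting off the part of high degree, whose coefficients have denominator `b` -/
lemma split_den (f : Polynomial ℝ) (j b : ℕ) (hb : 0 < b)
    (hrat : ∀ i, j < i → ∃ z : ℤ, (b : ℝ) * f.coeff i = z) :
    ∃ (g : Polynomial ℝ) (F : Polynomial ℤ), g.natDegree ≤ j ∧ g.coeff j = f.coeff j ∧
      ∀ n : ℤ, f.eval (n : ℝ) = g.eval (n : ℝ) + (F.eval n : ℤ) / b := by
  classical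
  have hr : ∀ i : ℕ, ∃ z : ℤ, j < i → (b : ℝ) * f.coeff i = z := by
    intro i
    by_cases h : j < i
    · obtain ⟨r, hr⟩ := hrat i h
      exact ⟨r, fun _ => hr⟩
    · exact ⟨0, fun h' => absurd h' h⟩
  choose κ hκ using hr
  have hb0 : (b : ℝ) ≠ 0 := by exact_mod_cast hb.ne'
  refine ⟨∑ i ∈ range (j + 1), Polynomial.monomial i (f.coeff i),
    ∑ i ∈ (range (f.natDegree + 1)).filter (fun i => j < i), Polynomial.monomial i (κ i),
    ?_, ?_, ?_⟩
  · apply Polynomial.natDegree_sum_le_of_forall_le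
    intro i hi
    exact (Polynomial.natDegree_monomial_le _).trans (Nat.lt_succ_iff.mp (mem_range.mp hi))
  · rw [Polynomial.finsetSum_coeff]
    simp only [Polynomial.coeff_monomial]
    rw [Finset.sum_ite_eq' (range (j + 1)) j (fun i => f.coeff i), if_pos (by simp)]
  · intro n
    rw [Polynomial.eval_eq_sum_range, Polynomial.eval_finsetSum, Polynomial.eval_finsetSum]
    simp only [Polynomial.eval_monomial]
    push_cast
    rw [Finset.sum_div]
    have h1 : ∑ i ∈ (range (f.natDegree + 1)).filter (fun i => j < i), (κ i : ℝ) * (n : ℝ) ^ i / b =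
        ∑ i ∈ (range (f.natDegree + 1)).filter (fun i => j < i), f.coeff i * (n : ℝ) ^ i := by
      apply Finset.sum_congr rfl
      intro i hi
      rw [Finset.mem_filter] at hi
      rw [← hκ i hi.2]
      field_simp
    rw [h1]
    have h2 : ∑ i ∈ range (j + 1), f.coeff i * (n : ℝ) ^ i =
        ∑ i ∈ (range (f.natDegree + 1)).filter (fun i => ¬ j < i), f.coeff i * (n : ℝ) ^ i := by
      symm
      apply Finset.sum_subset
      · intro i hi
        rw [Finset.mem_filter] at hi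
        rw [mem_range]
        omega
      · intro i hi hi'
        rw [Finset.mem_filter, mem_range] at hi'
        rw [mem_range] at hi
        have : f.natDegree < i := by omega
        rw [Polynomial.coeff_eq_zero_of_natDegree_lt this, zero_mul]
    rw [h2, ← Finset.sum_filter_add_sum_filter_not (range (f.natDegree + 1)) (fun i => j < i)
      (fun i => f.coeff i * (n : ℝ) ^ i)]
    ring

/-- the sum over a progression of difference `b q` -/
lemma weyl_one (F : Polynomial ℝ) (k b : ℕ) (hb : 0 < b)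
    (hrat : ∀ i, k + 1 < i → ∃ z : ℤ, (b : ℝ) * F.coeff i = z) (q : ℕ) (hq : 1 ≤ q) (w : ℤ)
    (Lr N H : ℕ) (hN : 1 ≤ N) (hL : Lr ≤ N) (hH : 1 ≤ H) (hHN : H ≤ N) (δ : ℝ) (hδ : 0 < δ)
    (hfr : ∀ P : ℕ, 1 ≤ P → P ≤ H ^ k →
      δ ≤ Int.fract ((P : ℝ) * (((b ^ (k + 1) * q ^ k * (k + 1).factorial : ℕ) : ℝ) *
        F.coeff (k + 1))) ∧
      Int.fract ((P : ℝ) * (((b ^ (k + 1) * q ^ k * (k + 1).factorial : ℕ) : ℝ) *
        F.coeff (k + 1))) ≤ 1 - δ) :
    (‖∑ m ∈ range Lr, e (F.eval ((w : ℝ) + ((b * q : ℕ) : ℝ) * (m : ℝ)) / q)‖ / N) ^ (2 ^ k) ≤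
      Cq k * (1 / H + 2 * (H : ℝ) ^ k / (δ * N)) := by
  obtain ⟨g, G, hgd, hgj, hfg⟩ := split_den F (k + 1) b hb hrat
  have hb0 : (0 : ℝ) < b := by exact_mod_cast hb
  have hq0 : (0 : ℝ) < q := by exact_mod_cast hq
  obtain ⟨B, hB⟩ : ∃ B : ℕ, B = b * q := ⟨_, rfl⟩
  rw [← hB]
  have hBr : (B : ℝ) = b * q := by rw [hB]; push_cast; rfl
  have hterm : ∀ m ∈ range Lr, e (F.eval ((w : ℝ) + (B : ℝ) * (m : ℝ)) / q) =
      e ((1 : ℝ) / q * g.eval ((w : ℝ) + B * (m : ℝ))) * e ((1 : ℝ) / (q * b) * (G.eval w : ℤ)) := by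
    intro m _
    have h1 := hfg (w + B * m)
    have h3 : (((w + B * m : ℤ)) : ℝ) = (w : ℝ) + B * (m : ℝ) := by push_cast; ring
    rw [h3] at h1
    rw [h1]
    obtain ⟨K, hK⟩ := Polynomial.sub_dvd_eval_sub (w + B * m) w G
    have h4 : (G.eval (w + (B : ℤ) * m) : ℤ) = G.eval w + (B : ℤ) * m * K := by
      have : w + (B : ℤ) * m - w = (B : ℤ) * m := by ring
      rw [this] at hK
      linarith
    rw [h4]
    have h5 : (g.eval ((w : ℝ) + B * (m : ℝ)) +
        (((G.eval w + (B : ℤ) * m * K : ℤ)) : ℝ) / b) / q =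
        (1 : ℝ) / q * g.eval ((w : ℝ) + B * (m : ℝ)) + (1 : ℝ) / (q * b) * (G.eval w : ℤ) +
          ((m * K : ℤ) : ℝ) := by
      push_cast
      rw [hBr]
      field_simp
      ring
    rw [h5, e_add, e_add, e_int, mul_one]
  rw [sum_congr rfl hterm, ← sum_mul, norm_mul, norm_e, mul_one]
  obtain ⟨φ, hφ⟩ : ∃ φ : ℕ → ℝ → ℝ, φ = fun i t => (1 : ℝ) / q * (B : ℝ) ^ i *
    (Polynomial.derivative^[i] g).eval ((w : ℝ) + B * t) := ⟨_, rfl⟩
  have hHy := poly_phase g k hgd ((1 : ℝ) / q) (w : ℝ) (B : ℝ) 0 Lr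
  rw [← hφ] at hHy
  obtain ⟨c, hc⟩ : ∃ c : ℝ, c = (1 : ℝ) / q * (B : ℝ) ^ (k + 1) *
    ((k + 1).factorial * g.coeff (k + 1)) := ⟨_, rfl⟩
  rw [← hc] at hHy
  have hcT : c = ((b ^ (k + 1) * q ^ k * (k + 1).factorial : ℕ) : ℝ) * F.coeff (k + 1) := by
    rw [hc, hgj, hBr]
    push_cast
    rw [mul_pow, pow_succ (q : ℝ) k]
    field_simp
  have hexp := exp_boundC hHy 0 N Lr H hN hL le_rfl (by simp) hH hHN δ hδ (by
    intro P hP1 hP2
    rw [hcT]
    exact hfr P hP1 hP2)
  have hsum : ∑ m ∈ range Lr, e (φ 0 (0 + (m : ℝ))) =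
      ∑ m ∈ range Lr, e ((1 : ℝ) / q * g.eval ((w : ℝ) + B * (m : ℝ))) := by
    refine sum_congr rfl fun m _ => ?_
    rw [hφ]
    simp
  rw [hsum] at hexp
  exact hexp

lemma fract_of_dist (x δ : ℝ) (h : ∀ m : ℤ, δ ≤ |x - m|) : δ ≤ Int.fract x ∧ Int.fract x ≤ 1 - δ := by
  constructor
  · have := h ⌊x⌋
    rwa [Int.self_sub_floor, abs_of_nonneg (Int.fract_nonneg x)] at this
  · have := h (⌊x⌋ + 1)
    have h4 : x - ((⌊x⌋ + 1 : ℤ) : ℝ) = Int.fract x - 1 := by
      push_cast
      rw [← Int.self_sub_floor]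
      ring
    rw [h4, abs_of_nonpos (by linarith [Int.fract_lt_one x])] at this
    linarith


end Pool.Agent.L7h72.NQ
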