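import Pool.Agent.L7h72.NQ.Wd
import Pool.Agent.L7h72.NQ.Copy

set_option autoImplicit false
set_option maxHeartbeats 4000000

/-! # Bracket polynomials `F(n, ⌊P(n)⌋)` (project NQ, helper72) -/

namespace Pool.Agent.L7h72.NQ

open Finset Filter
open Pool.Agent.H469R2.NK (e norm_e e_add Cq Cq_pos)
open Pool.Agent.W147.PS (ff ff_compare ev_pow)
open Pool.Agent.TH915.PW (GS GS_frequent GS_eventually fract_of_approx)
open Pool.Agent.Y961.JR (class_param)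
open Pool.Agent.N542.PT (Crit Good)

/-- the sums over residue classes in short intervals at the scale `Z`; the top coefficient is far from the
rational numbers with small denominators -/
theorem weyl_scale3 (k b : ℕ) (hb : 0 < b) (τ σ η : ℝ) (hτ : 0 < τ) (hσ0 : 0 < σ)
    (hη0 : 0 < η) (hησ : η ≤ σ) (hη2 : η < σ / 2 ^ k) (hσ1 : σ * (k + 1) ≤ 1 / 8)
    (hσ2 : σ * (k + 1) ≤ τ / 8) :
    ∀ᶠ Z : ℝ in atTop, ∀ F : Polynomial ℝ, (∀ i, k + 1 < i → ∃ z : ℤ, (b : ℝ) * F.coeff i = z) →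
      (∀ P : ℕ, 1 ≤ P → (P : ℝ) ≤ Z ^ (τ / 2) → ∀ m : ℤ,
        Z ^ (-(1 / 2) : ℝ) / 2 ≤ |(P : ℝ) * F.coeff (k + 1) - m|) →
      ∀ q : ℕ, 1 ≤ q → (q : ℝ) ≤ Z ^ η → ∀ n₀ L N : ℕ, L ≤ N → Z / 2 ≤ N →
      ‖∑ m ∈ range L, e (F.eval ((n₀ : ℝ) + q * (m : ℝ)) / q)‖ ≤ N * Z ^ (-η) := by
  have hb0 : (0 : ℝ) < b := by exact_mod_cast hb
  have hk0 : (0 : ℝ) ≤ k := Nat.cast_nonneg k
  have hCq := Cq_pos k
  set δ' : ℝ := σ / 2 ^ k with hδ'
  have hδ'0 : 0 < δ' := by positivity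
  set C₁ : ℝ := (Cq k * 3) ^ ((1 : ℝ) / 2 ^ k) with hC₁
  have hC₁0 : 0 < C₁ := by positivity
  set CT : ℝ := (b : ℝ) ^ (k + 1) * (k + 1).factorial with hCT
  have hCT0 : 0 < CT := by positivity
  set s : ℝ := σ * k + η * k with hs
  have hs1 : s ≤ τ / 4 := by
    have h1 : η * k ≤ σ * k := mul_le_mul_of_nonneg_right hησ hk0
    have h2 : σ * k ≤ σ * (k + 1) := by nlinarith
    rw [hs]
    linarith
  filter_upwards [eventually_ge_atTop (4 : ℝ), ev_pow s (τ / 2) CT (by linarith),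
    ev_pow (σ * k - 1 / 2) (-σ) 8 (by nlinarith), ev_pow σ 1 2 (by nlinarith),
    (tendsto_rpow_atTop hσ0).eventually_ge_atTop 2,
    ev_pow (-δ') (-η) (b * C₁) (by linarith)]
    with Z hZ4 hp1 hp2 hp3 hp4 hp6
  rw [Real.rpow_one] at hp3
  intro F hrat hdio q hq hqZ n₀ L N hLN hN
  have hZ0 : 0 < Z := by linarith
  have hZ1 : 1 ≤ Z := by linarith
  have hq0 : (0 : ℝ) < q := by exact_mod_cast hq
  have hN0 : (0 : ℝ) < N := by linarith
  have hN1 : 1 ≤ N := by exact_mod_cast hN0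
  set H : ℕ := ⌊Z ^ σ⌋₊ with hH
  have hHZ : (H : ℝ) ≤ Z ^ σ := Nat.floor_le (by positivity)
  have hZH : Z ^ σ / 2 ≤ H := by
    have := Nat.lt_floor_add_one (Z ^ σ)
    linarith
  have hH1 : 1 ≤ H := by
    have : (0 : ℝ) < H := by linarith
    exact_mod_cast this
  have hHN : H ≤ N := by
    have h1 : (H : ℝ) ≤ N := by linarith
    exact_mod_cast h1
  have hHk : (H : ℝ) ^ k ≤ Z ^ (σ * k) := by
    calc (H : ℝ) ^ k ≤ (Z ^ σ) ^ k := pow_le_pow_left₀ (Nat.cast_nonneg _) hHZ k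
      _ = Z ^ (σ * k) := by rw [← Real.rpow_natCast, ← Real.rpow_mul hZ0.le]
  -- the Diophantine condition
  have hfr : ∀ P : ℕ, 1 ≤ P → P ≤ H ^ k →
      Z ^ (-(1 / 2) : ℝ) / 2 ≤ Int.fract ((P : ℝ) *
        (((b ^ (k + 1) * q ^ k * (k + 1).factorial : ℕ) : ℝ) * F.coeff (k + 1))) ∧
      Int.fract ((P : ℝ) * (((b ^ (k + 1) * q ^ k * (k + 1).factorial : ℕ) : ℝ) *
        F.coeff (k + 1))) ≤ 1 - Z ^ (-(1 / 2) : ℝ) / 2 := by
    intro P hP1 hP2
    apply fract_of_dist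
    intro m
    obtain ⟨Q, hQ⟩ : ∃ Q : ℕ, Q = P * (b ^ (k + 1) * q ^ k * (k + 1).factorial) := ⟨_, rfl⟩
    have hQ1 : 1 ≤ Q := by
      rw [hQ]
      have h2 : 0 < q := by omega
      have h3 : 0 < P := by omega
      exact Nat.one_le_iff_ne_zero.mpr (by positivity)
    have hQZ : (Q : ℝ) ≤ Z ^ (τ / 2) := by
      have h2 : (P : ℝ) ≤ Z ^ (σ * k) := by
        have : (P : ℝ) ≤ (H : ℝ) ^ k := by exact_mod_cast hP2
        exact this.trans hHk
      have h3 : (q : ℝ) ^ k ≤ Z ^ (η * k) := by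
        calc (q : ℝ) ^ k ≤ (Z ^ η) ^ k := pow_le_pow_left₀ hq0.le hqZ k
          _ = Z ^ (η * k) := by rw [← Real.rpow_natCast, ← Real.rpow_mul hZ0.le]
      calc (Q : ℝ) = CT * (P * (q : ℝ) ^ k) := by
            rw [hQ, hCT]; push_cast; ring
        _ ≤ CT * (Z ^ (σ * k) * Z ^ (η * k)) := by gcongr
        _ = CT * Z ^ s := by rw [← Real.rpow_add hZ0]
        _ ≤ Z ^ (τ / 2) := hp1
    have h1 := hdio Q hQ1 hQZ m
    have e1 : (Q : ℝ) * F.coeff (k + 1) = (P : ℝ) *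
        (((b ^ (k + 1) * q ^ k * (k + 1).factorial : ℕ) : ℝ) * F.coeff (k + 1)) := by
      rw [hQ]
      push_cast
      ring
    rw [e1] at h1
    exact h1
  have hb2 : Cq k * (1 / H + 2 * (H : ℝ) ^ k / (Z ^ (-(1 / 2) : ℝ) / 2 * N)) ≤
      (Cq k * 3) * Z ^ (-σ) := by
    have e1 : 1 / (H : ℝ) ≤ 2 * Z ^ (-σ) := by
      rw [Real.rpow_neg hZ0.le, div_le_iff₀ (by linarith : (0 : ℝ) < H)]
      have h5 : (0 : ℝ) < Z ^ σ := by positivity
      calc (1 : ℝ) = 2 * (Z ^ σ)⁻¹ * (Z ^ σ / 2) := by field_simp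
        _ ≤ _ := by gcongr
    have e2 : 2 * (H : ℝ) ^ k / (Z ^ (-(1 / 2) : ℝ) / 2 * N) ≤ Z ^ (-σ) := by
      have h5 : (0 : ℝ) < Z ^ (-(1 / 2) : ℝ) := Real.rpow_pos_of_pos hZ0 _
      calc 2 * (H : ℝ) ^ k / (Z ^ (-(1 / 2) : ℝ) / 2 * N) ≤
          2 * Z ^ (σ * k) / (Z ^ (-(1 / 2) : ℝ) / 2 * (Z / 2)) := by gcongr
        _ = 8 * (Z ^ (σ * k) * Z ^ (1 / 2 : ℝ) * Z ^ (-1 : ℝ)) := by
            rw [Real.rpow_neg hZ0.le, Real.rpow_neg hZ0.le, Real.rpow_one]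
            field_simp
            norm_num
        _ = 8 * Z ^ (σ * k - 1 / 2) := by
            rw [← Real.rpow_add hZ0, ← Real.rpow_add hZ0]
            congr 2
            ring
        _ ≤ _ := hp2
    calc _ ≤ Cq k * (2 * Z ^ (-σ) + Z ^ (-σ)) := by gcongr
      _ = _ := by ring
  have hr2 : ((Cq k * 3) * Z ^ (-σ)) ^ ((1 : ℝ) / 2 ^ k) = C₁ * Z ^ (-δ') := by
    rw [Real.mul_rpow (by positivity) (by positivity), ← Real.rpow_mul hZ0.le, hC₁, hδ']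
    congr 2
    ring
  have hres : ∀ r < b, ‖∑ m ∈ range ((L + (b - 1 - r)) / b),
      e (F.eval ((n₀ : ℝ) + q * ((r + b * m : ℕ) : ℝ)) / q)‖ ≤ N * (C₁ * Z ^ (-δ')) := by
    intro r hr
    obtain ⟨Lr, hLr⟩ : ∃ Lr : ℕ, Lr = (L + (b - 1 - r)) / b := ⟨_, rfl⟩
    rw [← hLr]
    have hLrN : Lr ≤ N := by
      rcases Nat.eq_zero_or_pos L with h0 | h0
      · rw [hLr, h0, Nat.div_eq_of_lt (by omega)]
        exact Nat.zero_le _
      · refine le_trans ?_ hLN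
        rw [hLr]
        have h1 : L + (b - 1 - r) < (L + 1) * b := by
          have h2 : (L + 1) * b = L * b + b := by ring
          have h3 : L ≤ L * b := Nat.le_mul_of_pos_right L hb
          omega
        have := (Nat.div_lt_iff_lt_mul hb).mpr h1
        omega
    have h1 := weyl_one F k b hb hrat q hq ((n₀ + q * r : ℕ) : ℤ) Lr N H hN1 hLrN hH1 hHN
      (Z ^ (-(1 / 2) : ℝ) / 2) (by positivity) hfr
    have h2 := root_le _ _ k (by positivity) (h1.trans hb2)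
    rw [hr2, div_le_iff₀ hN0] at h2
    rw [mul_comm (N : ℝ)]
    refine le_trans (le_of_eq ?_) h2
    congr 1
    apply Finset.sum_congr rfl
    intro m _
    congr 3
    push_cast
    ring
  have hall := norm_split (fun m => e (F.eval ((n₀ : ℝ) + q * (m : ℝ)) / q)) L b hb
    (N * (C₁ * Z ^ (-δ'))) hres
  refine hall.trans ?_
  calc (b : ℝ) * (N * (C₁ * Z ^ (-δ'))) = N * (b * C₁ * Z ^ (-δ')) := by ring
    _ ≤ N * Z ^ (-η) := by gcongr

/-- a common denominator of the coefficients of high degree -/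
lemma den_high (P : Polynomial ℝ) (k : ℕ) (hrat : ∀ i, k + 1 < i → ∃ r : ℚ, P.coeff i = r) :
    ∃ b : ℕ, 0 < b ∧ ∀ i, k + 1 < i → ∃ z : ℤ, (b : ℝ) * P.coeff i = z := by
  classical
  have h : ∀ i, ∃ r : ℚ, k + 1 < i → P.coeff i = r := by
    intro i
    by_cases hi : k + 1 < i
    · obtain ⟨r, hr⟩ := hrat i hi
      exact ⟨r, fun _ => hr⟩
    · exact ⟨0, fun h => absurd h hi⟩
  choose r hr using h
  refine ⟨∏ i ∈ range (P.natDegree + 1), (r i).den, Finset.prod_pos fun i _ => (r i).den_pos, ?_⟩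
  intro i hi
  by_cases h1 : i < P.natDegree + 1
  · obtain ⟨c, hc⟩ := Finset.dvd_prod_of_mem (fun i => (r i).den) (mem_range.2 h1)
    refine ⟨c * (r i).num, ?_⟩
    rw [hc, hr i hi]
    have h3 := Rat.den_mul_eq_num (r i)
    have h4 : (((r i).den : ℚ) : ℝ) * ((r i : ℚ) : ℝ) = (((r i).num : ℚ) : ℝ) := by
      rw [← Rat.cast_mul, h3]
    push_cast at h4 ⊢
    calc ((r i).den : ℝ) * c * ((r i : ℚ) : ℝ) = c * (((r i).den : ℝ) * ((r i : ℚ) : ℝ)) := by ring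
      _ = _ := by rw [h4]
  · refine ⟨0, ?_⟩
    rw [Polynomial.coeff_eq_zero_of_natDegree_lt (by omega)]
    simp

/-- **bracket polynomials at a good scale** -/
theorem bracket_scale {ι : Type} (Φ : ι → MvPolynomial (Fin 2) ℤ) (hΦ : Crit 2 Φ) (P : Polynomial ℝ) (k : ℕ)
    (hrat : ∀ i, k + 1 < i → ∃ r : ℚ, P.coeff i = r) (τ : ℝ) (hτ0 : 0 < τ) (hτ1 : τ ≤ 1 / 2)
    (ε : ℝ) (hε : 0 < ε) :
    ∃ κ : ℝ, 0 < κ ∧ ∀ᶠ Z : ℝ in atTop, GS (P.coeff (k + 1)) τ Z → ∀ M : ℝ, 0 ≤ M →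
      ∃ G : Finset ℕ, Z ^ (1 - ε) ≤ (G.card : ℝ) ∧ ∀ n ∈ G, M < n ∧ (n : ℝ) ≤ M + Z ∧
        Good Φ (κ * ff Z) (Z ^ ε) ![(n : ℤ), ⌊P.eval (n : ℝ)⌋] := by
  classical
  obtain ⟨b, hb, hbz⟩ := den_high P k hrat
  have hk0 : (0 : ℝ) ≤ k := Nat.cast_nonneg k
  set σ : ℝ := τ / (8 * ((k : ℝ) + 1)) with hσ
  have hσ0 : 0 < σ := by positivity
  have hσk : σ * ((k : ℝ) + 1) = τ / 8 := by rw [hσ]; field_simp
  have hστ : σ ≤ τ / 8 := by nlinarith
  set η : ℝ := min (σ / 2 ^ (k + 1)) (ε / 2) with hη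
  have hη0 : 0 < η := lt_min (by positivity) (by positivity)
  have hησ' : η ≤ σ / 2 ^ (k + 1) := min_le_left _ _
  have hηε : η ≤ ε / 2 := min_le_right _ _
  have h2k : σ / 2 ^ (k + 1) < σ / 2 ^ k := by
    apply div_lt_div_of_pos_left hσ0 (by positivity)
    exact pow_lt_pow_right₀ (by norm_num) (by omega)
  have h2k' : σ / 2 ^ k ≤ σ := div_le_self hσ0.le (one_le_pow₀ (by norm_num))
  have hησ : η ≤ σ := by linarith
  have hη1 : η ≤ 1 / 8 := by linarith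
  obtain ⟨κ, hκ, hmany⟩ := many_exp1 1 le_rfl Φ hΦ η hη0 (by linarith)
  have hw := weyl_scale3 k b hb τ σ η hτ0 hσ0 hη0 hησ (by linarith) (by linarith) (by linarith)
  refine ⟨κ, hκ, ?_⟩
  filter_upwards [hmany, hw, eventually_ge_atTop (4 : ℝ), ev_pow η 1 2 (by linarith),
    ev_pow (τ / 2 + η) τ 2 (by linarith), ev_pow (1 - ε) (1 - η) 2 (by linarith)]
    with Z hmany hw hZ4 hp1 hp2 hp3
  rw [Real.rpow_one] at hp1
  rintro ⟨a, D, hcop, hD1, hD2, hap⟩ M hM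
  have hZ0 : 0 < Z := by linarith
  have hZ1 : 1 ≤ Z := by linarith
  have hmono : ∀ x y : ℝ, x ≤ y → Z ^ x ≤ Z ^ y := fun x y h =>
    Real.rpow_le_rpow_of_exponent_le hZ1 h
  have hDpos : (0 : ℝ) < D := lt_of_lt_of_le (by positivity) hD1
  set A : ℕ := ⌊M⌋₊ with hA
  set B : ℕ := ⌊M + Z⌋₊ with hB
  have hAM : (A : ℝ) ≤ M := Nat.floor_le hM
  have hAM2 : M < A + 1 := Nat.lt_floor_add_one M
  have hBM : (B : ℝ) ≤ M + Z := Nat.floor_le (by linarith)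
  have hBM2 : M + Z < B + 1 := Nat.lt_floor_add_one (M + Z)
  have hAB' : (A : ℝ) < B := by linarith
  have hAB : A < B := by exact_mod_cast hAB'
  have hmem : ∀ n ∈ Ioc A B, M < (n : ℝ) ∧ (n : ℝ) ≤ M + Z := by
    intro n hn
    rw [Finset.mem_Ioc] at hn
    have h1 : ((A + 1 : ℕ) : ℝ) ≤ n := by exact_mod_cast hn.1
    have h2 : (n : ℝ) ≤ B := by exact_mod_cast hn.2
    push_cast at h1
    constructor <;> linarith
  have hcard : ((Ioc A B).card : ℝ) = (B : ℝ) - A := by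
    rw [Nat.card_Ioc, Nat.cast_sub hAB.le]
  have hZhalf : Z / 2 ≤ (Ioc A B).card := by
    rw [hcard]; linarith
  have hmain : 1 ≤ ((Ioc A B).card : ℝ) * Z ^ (-η) := by
    rw [Real.rpow_neg hZ0.le]
    have h1 : 0 < Z ^ η := Real.rpow_pos_of_pos hZ0 _
    rw [← div_eq_mul_inv, le_div_iff₀ h1]
    linarith
  obtain ⟨G, hG, hG1, hG2⟩ := hmany ℕ (Ioc A B) (fun n => (n : ℤ))
    (fun n _ => P.eval (n : ℝ)) ⟨B, Finset.mem_Ioc.mpr ⟨hAB, le_rfl⟩⟩ (by
      intro q hq hqZ b'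
      obtain ⟨n₀, L, g1, g2, g3, g4, g5, g6⟩ := class_param A B q hq hAB.le b'
      constructor
      · rw [g5, hcard]
        exact g3.trans (by rw [← hcard]; exact hmain)
      · intro h hh hhZ
        rw [g6]
        have hh0 : h 0 ≠ 0 := by
          intro h0
          apply hh
          funext j
          rw [Subsingleton.elim j 0, h0]
          rfl
        have hh1 := hhZ 0
        -- the polynomial
        have e1 : ∀ m : ℕ, (∑ j : Fin 1, (h j : ℝ) * (P.eval ((n₀ + q * m : ℕ) : ℝ) / q)) =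
            (Polynomial.C (h 0 : ℝ) * P).eval ((n₀ : ℝ) + q * (m : ℝ)) / q := by
          intro m
          rw [Fin.sum_univ_one, Polynomial.eval_mul, Polynomial.eval_C]
          push_cast
          ring
        simp_rw [e1]
        apply hw (Polynomial.C (h 0 : ℝ) * P) ?_ ?_ q hq hqZ n₀ L (Ioc A B).card ?_ hZhalf
        · intro i hi
          obtain ⟨z, hz⟩ := hbz i hi
          refine ⟨h 0 * z, ?_⟩
          rw [Polynomial.coeff_C_mul]
          push_cast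
          rw [← hz]
          ring
        · intro Q hQ1 hQZ m
          rw [Polynomial.coeff_C_mul]
          -- reduce to a positive multiplier
          obtain ⟨T, hT⟩ : ∃ T : ℕ, T = Q * (h 0).natAbs := ⟨_, rfl⟩
          have hT1 : 1 ≤ T := by
            rw [hT]
            exact Nat.mul_pos hQ1 (Int.natAbs_pos.2 hh0)
          have hTr : (T : ℝ) = Q * |(h 0 : ℝ)| := by
            rw [hT]
            push_cast
            rw [Nat.cast_natAbs]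
            push_cast
            rfl
          have hTZ : 2 * (T : ℝ) ≤ D := by
            refine le_trans ?_ (hp2.trans hD1)
            rw [hTr, Real.rpow_add hZ0]
            have : (Q : ℝ) * |(h 0 : ℝ)| ≤ Z ^ (τ / 2) * Z ^ η :=
              mul_le_mul hQZ hh1 (abs_nonneg _) (by positivity)
            linarith
          have hfr := fract_of_approx hcop hap hT1 (by exact_mod_cast hTZ)
          have hDZ : Z ^ (-(1 / 2) : ℝ) / 2 ≤ 1 / (2 * (D : ℝ)) := by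
            have e3 : Z ^ (-(1 / 2) : ℝ) / 2 = 1 / (2 * Z ^ (1 / 2 : ℝ)) := by
              rw [Real.rpow_neg hZ0.le]
              field_simp
            rw [e3]
            apply one_div_le_one_div_of_le (by positivity)
            linarith
          have hdist : ∀ m' : ℤ, Z ^ (-(1 / 2) : ℝ) / 2 ≤ |(T : ℝ) * P.coeff (k + 1) - m'| := by
            intro m'
            obtain ⟨x, hx⟩ : ∃ x : ℝ, x = (T : ℝ) * P.coeff (k + 1) := ⟨_, rfl⟩
            rw [← hx] at hfr ⊢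
            have hfl : (⌊x⌋ : ℝ) + Int.fract x = x := Int.floor_add_fract x
            rcases le_or_gt m' ⌊x⌋ with hm | hm
            · have h1 : (m' : ℝ) ≤ ⌊x⌋ := by exact_mod_cast hm
              rw [abs_of_nonneg (by linarith [hfr.1, Int.fract_nonneg x])]
              linarith [hfr.1]
            · have h1 : (⌊x⌋ : ℝ) + 1 ≤ m' := by exact_mod_cast hm
              rw [abs_of_nonpos (by linarith [hfr.2, Int.fract_lt_one x])]
              linarith [hfr.2]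
          rcases abs_cases (h 0 : ℝ) with ⟨h1, -⟩ | ⟨h1, -⟩
          · have h2 := hdist m
            rw [hTr, h1] at h2
            refine h2.trans (le_of_eq ?_)
            congr 1
            ring
          · have h2 := hdist (-m)
            rw [hTr, h1] at h2
            refine h2.trans (le_of_eq ?_)
            rw [← abs_neg]
            congr 1
            push_cast
            ring
        · rw [← g5]
          exact Finset.card_filter_le _ _)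
  refine ⟨G, le_trans ?_ hG1, fun n hn => ⟨(hmem n (hG hn)).1, (hmem n (hG hn)).2, ?_⟩⟩
  · calc Z ^ (1 - ε) ≤ Z ^ (1 - η) / 2 := by linarith
      _ = Z / 2 * Z ^ (-η) := by
          rw [sub_eq_add_neg, Real.rpow_add hZ0, Real.rpow_one]
          ring
      _ ≤ _ := mul_le_mul_of_nonneg_right hZhalf (by positivity)
  · have h1 := hG2 n hn
    have e2 : (Fin.cons (n : ℤ) (fun _ : Fin 1 => ⌊P.eval (n : ℝ)⌋) : Fin (1 + 1) → ℤ) =
        ![(n : ℤ), ⌊P.eval (n : ℝ)⌋] := by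
      funext j
      fin_cases j
      · rfl
      · rfl
    intro j m hm
    have h2 := h1 j m (by
      rw [e2]
      exact hm)
    obtain ⟨p, hp, hp1, hp2⟩ := h2
    exact ⟨p, hp, hp1.trans (hmono _ _ (by linarith)), hp2⟩

/-- **bracket polynomials**: infinitely many scales, and all large scales if no coefficient is a Liouville number -/
theorem bracket_both {ι : Type} (Φ : ι → MvPolynomial (Fin 2) ℤ) (hΦ : Crit 2 Φ) (P : Polynomial ℝ)
    (h : ∃ i, 1 ≤ i ∧ Irrational (P.coeff i)) (ε : ℝ) (hε : 0 < ε) :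
    ∃ κ : ℝ, 0 < κ ∧
      (∀ Z₁ : ℝ, ∃ Z : ℝ, Z₁ ≤ Z ∧ ∀ M : ℝ, 0 ≤ M →
        ∃ G : Finset ℕ, Z ^ (1 - ε) ≤ (G.card : ℝ) ∧ ∀ n ∈ G, M < n ∧ (n : ℝ) ≤ M + Z ∧
          Good Φ (κ * ff Z) (Z ^ ε) ![(n : ℤ), ⌊P.eval (n : ℝ)⌋]) ∧
      ((∀ i, 1 ≤ i → ¬ Liouville (P.coeff i)) → ∀ᶠ Z : ℝ in atTop, ∀ M : ℝ, 0 ≤ M →
        ∃ G : Finset ℕ, Z ^ (1 - ε) ≤ (G.card : ℝ) ∧ ∀ n ∈ G, M < n ∧ (n : ℝ) ≤ M + Z ∧
          Good Φ (κ * ff Z) (Z ^ ε) ![(n : ℤ), ⌊P.eval (n : ℝ)⌋]) := by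
  obtain ⟨k, hk, hrat, -⟩ := top_irrational P h
  by_cases hL : ∀ i, 1 ≤ i → ¬ Liouville (P.coeff i)
  · obtain ⟨τ, hτ0, hτ1, hGS⟩ := GS_eventually hk (hL (k + 1) (by omega))
    obtain ⟨κ, hκ, hev⟩ := bracket_scale Φ hΦ P k hrat τ hτ0 hτ1 ε hε
    have hall : ∀ᶠ Z : ℝ in atTop, ∀ M : ℝ, 0 ≤ M →
        ∃ G : Finset ℕ, Z ^ (1 - ε) ≤ (G.card : ℝ) ∧ ∀ n ∈ G, M < n ∧ (n : ℝ) ≤ M + Z ∧
          Good Φ (κ * ff Z) (Z ^ ε) ![(n : ℤ), ⌊P.eval (n : ℝ)⌋] := by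
      filter_upwards [hGS, hev] with Z h1 h2
      exact h2 h1
    refine ⟨κ, hκ, fun Z₁ => ?_, fun _ => hall⟩
    obtain ⟨Z, hZ1, hZ2⟩ := ((eventually_ge_atTop Z₁).and hall).exists
    exact ⟨Z, hZ1, hZ2⟩
  · obtain ⟨κ, hκ, hev⟩ := bracket_scale Φ hΦ P k hrat (1 / 2) (by norm_num) le_rfl ε hε
    refine ⟨κ, hκ, fun Z₁ => ?_, fun h => absurd h hL⟩
    obtain ⟨Z₀, hZ₀⟩ := eventually_atTop.mp hev
    obtain ⟨Z, hZ, hGS⟩ := GS_frequent hk (1 / 2) le_rfl (max Z₀ Z₁)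
    exact ⟨Z, (le_max_right _ _).trans hZ, hZ₀ Z ((le_max_left _ _).trans hZ) hGS⟩

end Pool.Agent.L7h72.NQ
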