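import Pool.Agent.L7h72.NQ.GenA
import Pool.Agent.L7h72.NP.Main
import Pool.Agent.N542.PT.Real

set_option autoImplicit false
set_option linter.unusedSectionVars false
set_option linter.unusedVariables false

/-! # All noncomposite polynomials at one member of a well distributed family of points (project NQ, helper72) -/

namespace Pool.Agent.L7h72.NQ

open Finset hiding dens
open Filter
open Pool.Agent.H256R2.SC (ff)
open Pool.Agent.Y837.SV
open Pool.Agent.N542.PT (WellDist)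
open Pool.Agent.L7h72.NP

open scoped Classical

/-- **The criterion**: equidistribution modulo the primes, apart from the roots modulo `p` of fixed
polynomials, implies record neighbourhoods. -/
theorem crit4A {ι : Type} [Fintype ι] (d : ℕ) (F : ι → MvPolynomial (Fin d) ℤ)
    (hF : ∀ j, F j ≠ 0) (hF0 : ∀ j, MvPolynomial.eval 0 (F j) = 0)
    (D : ι → Polynomial ℤ) (hD : ∀ j, D j ≠ 0) (A B₀ : ℕ) (C δ : ℝ) (hδ : 0 < δ)
    (hU : ∀ p : ℕ, p.Prime → B₀ < p → ∀ j, ∀ r : ZMod p, Polynomial.aeval r (D j) ≠ 0 →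
      |(p : ℝ) * (Nat.card {x : Fin d → ZMod p // MvPolynomial.aeval x (F j) = r} : ℝ) - (p : ℝ) ^ d| ≤
        C * (p : ℝ) ^ d * (p : ℝ) ^ (-δ))
    (hP : ∀ p : ℕ, p.Prime → B₀ < p → ∀ i j, i ≠ j → ∀ r s : ZMod p, Polynomial.aeval r (D i) ≠ 0 →
      Polynomial.aeval s (D j) ≠ 0 →
      (p : ℝ) ^ 2 * (Nat.card {x : Fin d → ZMod p // MvPolynomial.aeval x (F i) = r ∧
        MvPolynomial.aeval x (F j) = s} : ℝ) ≤ C * (p : ℝ) ^ d) :
    ∃ c : ℝ, 0 < c ∧ ∃ Z₀ : ℝ, ∀ Z : ℝ, Z₀ ≤ Z → ∀ (α : Type) (s : Finset α) (w : α → Fin d → ℤ),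
      s.Nonempty → WellDist Z s w → ∃ a ∈ s, ∀ j, ∀ h : ℤ, |(h : ℝ)| ≤ c * ff Z →
        ∃ p : ℕ, p.Prime ∧ A < p ∧ (p : ℝ) ≤ Z ^ (1 / 10 : ℝ) ∧
          (p : ℤ) ∣ MvPolynomial.eval (w a) (F j) + h := by
  have hFC : ∀ j, ∀ c : ℤ, F j ≠ MvPolynomial.C c := by
    intro j c h
    have h1 := hF0 j
    rw [h, MvPolynomial.eval_C] at h1
    apply hF j
    rw [h, h1, map_zero]
  obtain ⟨w, hw⟩ := avoid d F (fun j => 0) (fun j => hFC j _)
  obtain ⟨B₁, hB₁⟩ : ∃ B₁ : ℕ, B₁ = A + B₀ + ∑ j : ι,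
      (MvPolynomial.eval w (F j)).natAbs := ⟨_, rfl⟩
  obtain ⟨E, hE⟩ : ∃ E : Finset (ι × ℤ), E = univ.biUnion (fun j => ((D j).roots.toFinset).image
    (fun r => (j, r))) := ⟨_, rfl⟩
  have hEmem : ∀ j, ∀ r : ℤ, (D j).eval r = 0 → (j, r) ∈ E := by
    intro j r hr
    rw [hE, mem_biUnion]
    refine ⟨j, mem_univ _, mem_image.2 ⟨r, ?_, rfl⟩⟩
    rw [Multiset.mem_toFinset, Polynomial.mem_roots (hD j)]
    exact hr
  obtain ⟨B, hB, u, hu1, hu2⟩ := extras2 d (fun j x => MvPolynomial.eval x (F j)) B₁ w E (by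
    intro k hk B
    exact schur_mv (F k.1) (hFC k.1) k.2 B)
  have hBB₀ : B₀ ≤ B := by omega
  have hδ' : 0 < min δ (1 / 2) := lt_min hδ (by norm_num)
  refine gen4A d (fun j p x => MvPolynomial.aeval x (F j)) (fun j x => MvPolynomial.eval x (F j)) ?_ A B
    (by omega) (fun _ => 0) u ?_ ?_ D ?_ |C| (min δ (1 / 2)) (abs_nonneg C) hδ'
    (min_le_right _ _) ?_ ?_
  · intro j p x
    have h1 : (Int.castRingHom (ZMod p)) (MvPolynomial.eval x (F j)) =
        MvPolynomial.aeval (red d p x) (F j) := by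
      rw [MvPolynomial.aeval_def, MvPolynomial.eval, MvPolynomial.coe_eval₂Hom,
        MvPolynomial.hom_eval₂]
      congr 1
    exact h1
  · intro p hp hBp j
    rw [hF0 j]
    exact dvd_zero _
  · intro p hp hBp j hdvd
    rw [hu1 p hBp] at hdvd
    have h1 := Int.natAbs_dvd_natAbs.2 hdvd
    rw [Int.natAbs_natCast] at h1
    have h2 : 0 < (MvPolynomial.eval w (F j)).natAbs := Int.natAbs_pos.2 (hw j)
    have h3 := Nat.le_of_dvd h2 h1
    have h4 : (MvPolynomial.eval w (F j)).natAbs ≤ ∑ j : ι, (MvPolynomial.eval w (F j)).natAbs :=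
      Finset.single_le_sum (f := fun j : ι => (MvPolynomial.eval w (F j)).natAbs)
        (fun _ _ => Nat.zero_le _) (mem_univ j)
    omega
  · intro j r hr
    obtain ⟨p, hp, h1, h2, h3⟩ := hu2 (j, r) (hEmem j r hr)
    exact ⟨p, hp, by omega, h2, h3⟩
  · intro p hp hBp j r hr
    have hp1 : (1 : ℝ) ≤ p := by exact_mod_cast hp.one_lt.le
    refine (hU p hp (lt_of_le_of_lt hBB₀ hBp) j r hr).trans ?_
    have hpd : (0 : ℝ) ≤ (p : ℝ) ^ d := by positivity
    have h3 : (p : ℝ) ^ (-δ) ≤ (p : ℝ) ^ (-min δ (1 / 2)) :=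
      Real.rpow_le_rpow_of_exponent_le hp1 (neg_le_neg (min_le_left _ _))
    have h4 : (0 : ℝ) ≤ (p : ℝ) ^ (-δ) := by positivity
    calc C * (p : ℝ) ^ d * (p : ℝ) ^ (-δ) ≤ |C| * (p : ℝ) ^ d * (p : ℝ) ^ (-δ) := by
          apply mul_le_mul_of_nonneg_right _ h4
          exact mul_le_mul_of_nonneg_right (le_abs_self C) hpd
      _ ≤ |C| * (p : ℝ) ^ d * (p : ℝ) ^ (-min δ (1 / 2)) :=
          mul_le_mul_of_nonneg_left h3 (by positivity)
  · intro p hp hBp i j hij r s hr hs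
    refine (hP p hp (lt_of_le_of_lt hBB₀ hBp) i j hij r s hr hs).trans ?_
    exact mul_le_mul_of_nonneg_right (le_abs_self C) (by positivity)


end Pool.Agent.L7h72.NQ
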