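import Pool.Agent.L7h72.NQ.CritA
import Pool.Agent.L7h72.NP.Fam

set_option autoImplicit false
set_option linter.unusedVariables false

/-! # Finite families of noncomposite polynomials at well distributed families of points (project NQ, helper72) -/

open Polynomial

namespace Pool.Agent.L7h72.NQ

open Pool.Agent.H256R2.SC (ff)
open Pool.Agent.N542.PT (WellDist)
open Pool.Agent.L7h72.NP

/-- **the theorem for a family of pairwise non-proportional polynomials** -/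
theorem familyA {ι : Type} [Fintype ι] (F : ι → MvPolynomial (Fin 2) ℤ) (hNC : ∀ j, NC (F j))
    (h0 : ∀ j, (F j).coeff 0 = 0)
    (hind : ∀ i j, ∀ a b : ℤ, a ≠ 0 → b ≠ 0 → MvPolynomial.C a * F i = MvPolynomial.C b * F j → i = j)
    (A : ℕ) :
    ∃ c : ℝ, 0 < c ∧ ∃ Z₀ : ℝ, ∀ Z : ℝ, Z₀ ≤ Z → ∀ (α : Type) (s : Finset α) (w : α → Fin 2 → ℤ),
      s.Nonempty → WellDist Z s w → ∃ a ∈ s, ∀ j, ∀ h : ℤ, |(h : ℝ)| ≤ c * ff Z →
        ∃ p : ℕ, p.Prime ∧ A < p ∧ (p : ℝ) ≤ Z ^ (1 / 10 : ℝ) ∧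
          (p : ℤ) ∣ MvPolynomial.eval (w a) (F j) + h := by
  obtain ⟨N, hNd⟩ : ∃ N : ℕ, ∀ j, (F j).totalDegree < N := by
    refine ⟨∑ j, ((F j).totalDegree + 1), fun j => ?_⟩
    have := Finset.single_le_sum (f := fun j => (F j).totalDegree + 1) (fun _ _ => Nat.zero_le _)
      (Finset.mem_univ j)
    omega
  have hFne : ∀ j, F j ≠ 0 := by
    intro j h
    obtain ⟨m, -, hm⟩ := NC_nonconst (hNC j)
    rw [h, MvPolynomial.coeff_zero] at hm
    exact hm rfl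
  choose D Cc hD hCc hfib using fun j => fiber (hNC j) (hNd j)
  obtain ⟨M₀, hM₀⟩ : ∃ M₀ : ℕ, ∀ j, (PF N (F j)).natDegree ≤ M₀ ∧ idg (PF N (F j)) ≤ M₀ := by
    refine ⟨∑ j, ((PF N (F j)).natDegree + idg (PF N (F j))), fun j => ?_⟩
    have := Finset.single_le_sum (f := fun j => (PF N (F j)).natDegree + idg (PF N (F j)))
      (fun _ _ => Nat.zero_le _) (Finset.mem_univ j)
    constructor <;> omega
  obtain ⟨C₀, hC₀⟩ : ∃ C₀ : ℝ, ∀ j, Cc j ≤ C₀ := by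
    refine ⟨∑ j, Cc j, fun j => ?_⟩
    exact Finset.single_le_sum (f := fun j => Cc j) (fun j _ => hCc j) (Finset.mem_univ j)
  obtain ⟨B₀, hB₀⟩ : ∃ B₀ : ℕ, ∀ i j, 2 * hgt (F i) * hgt (F j) ≤ B₀ := by
    refine ⟨∑ i, ∑ j, (2 * hgt (F i) * hgt (F j)).natAbs, fun i j => ?_⟩
    have q1 := Finset.single_le_sum (f := fun j => (2 * hgt (F i) * hgt (F j)).natAbs)
      (fun _ _ => Nat.zero_le _) (Finset.mem_univ j)
    have q2 := Finset.single_le_sum (f := fun i => ∑ j, (2 * hgt (F i) * hgt (F j)).natAbs)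
      (fun _ _ => Nat.zero_le _) (Finset.mem_univ i)
    have q3 : 2 * hgt (F i) * hgt (F j) ≤ ((2 * hgt (F i) * hgt (F j)).natAbs : ℤ) := Int.le_natAbs
    have q4 : ((2 * hgt (F i) * hgt (F j)).natAbs : ℤ) ≤
        ((∑ i, ∑ j, (2 * hgt (F i) * hgt (F j)).natAbs : ℕ) : ℤ) := by
      exact_mod_cast q1.trans q2
    exact q3.trans q4
  refine crit4A 2 F hFne ?_ D hD A B₀ (max C₀ (2 * (M₀ : ℝ) ^ 3)) (1 / 2) (by norm_num) ?_ ?_
  · intro j
    rw [MvPolynomial.eval_zero, MvPolynomial.constantCoeff_eq]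
    exact h0 j
  · intro p hp hBp j r hr
    haveI : Fact p.Prime := ⟨hp⟩
    obtain ⟨-, h1⟩ := hfib j p r hr
    have hp0 : (0 : ℝ) < p := by exact_mod_cast hp.pos
    have e1 : (p : ℝ) * (Nat.card {x : Fin 2 → ZMod p // MvPolynomial.aeval x (F j) = r} : ℝ) - (p : ℝ) ^ 2 =
        p * ((Nat.card {x : Fin 2 → ZMod p // MvPolynomial.aeval x (F j) = r} : ℝ) - p) := by ring
    rw [e1, abs_mul, abs_of_pos hp0]
    have e2 : (p : ℝ) ^ 2 * (p : ℝ) ^ (-(1 / 2 : ℝ)) = p * √(p : ℝ) := by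
      rw [Real.sqrt_eq_rpow, ← Real.rpow_natCast, ← Real.rpow_add hp0]
      nth_rewrite 2 [← Real.rpow_one (p : ℝ)]
      rw [← Real.rpow_add hp0]
      norm_num
    rw [mul_assoc, e2]
    have h2 : Cc j * √(p : ℝ) ≤ max C₀ (2 * (M₀ : ℝ) ^ 3) * √(p : ℝ) :=
      mul_le_mul_of_nonneg_right ((hC₀ j).trans (le_max_left _ _)) (Real.sqrt_nonneg _)
    calc (p : ℝ) * |_| ≤ p * (Cc j * √(p : ℝ)) := mul_le_mul_of_nonneg_left h1 hp0.le
      _ ≤ p * (max C₀ (2 * (M₀ : ℝ) ^ 3) * √(p : ℝ)) := mul_le_mul_of_nonneg_left h2 hp0.le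
      _ = _ := by ring
  · intro p hp hBp i j hij r s hr hs
    haveI : Fact p.Prime := ⟨hp⟩
    obtain ⟨⟨ψ, hψ, hP, ⟨b, hb, hl⟩, hP0⟩, -⟩ := hfib i p r hr
    obtain ⟨⟨θ, hθ, hQ, -, hQ0⟩, -⟩ := hfib j p s hs
    haveI : CharP (AlgebraicClosure (ZMod p)) p := charP_of_injective_algebraMap
      (algebraMap (ZMod p) (AlgebraicClosure (ZMod p))).injective p
    have hna : ¬ Associated ((PF N (F i)).map (mapRingHom ψ)) ((PF N (F j)).map (mapRingHom θ)) := by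
      intro h
      rw [PF_map, PF_map] at h
      have hlt : 2 * hgt (F i) * hgt (F j) < p := by
        have q1 := hB₀ i j
        have q2 : (B₀ : ℤ) < p := by exact_mod_cast hBp
        omega
      obtain ⟨a, b, ha, hb, hab⟩ := rel_of_assoc (h0 i) (h0 j) (hFne i) (hFne j) hlt N _ _ h
      exact hij (hind i j a b ha hb hab)
    have h1 := count_pair (F i) (F j) N M₀ r s (hM₀ i).1 (hM₀ j).1 (hM₀ i).2 (hM₀ j).2 ψ θ hψ hθ hP hQ
      b hb hl hP0 hQ0 hna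
    have h2 : (Nat.card {x : Fin 2 → ZMod p // MvPolynomial.aeval x (F i) = r ∧
        MvPolynomial.aeval x (F j) = s} : ℝ) ≤ 2 * (M₀ : ℝ) ^ 3 := by exact_mod_cast h1
    rw [mul_comm]
    apply mul_le_mul_of_nonneg_right _ (by positivity)
    exact h2.trans (le_max_right _ _)


end Pool.Agent.L7h72.NQ
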