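import Pool.Agent.N542.PT.Gen
import Pool.Agent.L7h72.NP.Gen4
import Pool.Agent.L7h72.NQ.CovA

set_option autoImplicit false
set_option linter.unusedSectionVars false
set_option linter.unusedVariables false

/-! # The assembly with a bounded number of bad primes for each value, for arbitrary well distributed families of
integer vectors (project NQ, helper72) -/

namespace Pool.Agent.L7h72.NQ

open Finset hiding dens
open Filter
open Pool.Agent.H256R2.SC (ff crt_int)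
open Pool.Agent.H256R2.SC.LG (ana)
open Pool.Agent.H378R2.QG (w0 ev_pow ev_more inj_of_small)
open Pool.Agent.Y837.SV
open Pool.Agent.N542.PT (WellDist)
open Pool.Agent.L7h72.NP

open scoped Classical

theorem gen4A {ι : Type} [Fintype ι] (d : ℕ) (φ : ι → ∀ p : ℕ, (Fin d → ZMod p) → ZMod p)
    (f : ι → (Fin d → ℤ) → ℤ) (hf : ∀ j (p : ℕ) x, ((f j x : ℤ) : ZMod p) = φ j p (red d p x))
    (A B : ℕ) (hAB : A ≤ B) (v u : ℕ → Fin d → ℤ)
    (hv : ∀ p : ℕ, p.Prime → B < p → ∀ j, (p : ℤ) ∣ f j (v p))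
    (hu : ∀ p : ℕ, p.Prime → B < p → ∀ j, ¬ (p : ℤ) ∣ f j (u p))
    (D : ι → Polynomial ℤ)
    (hEx : ∀ j, ∀ r : ℤ, (D j).eval r = 0 → ∃ p : ℕ, p.Prime ∧ A < p ∧ p ≤ B ∧ (p : ℤ) ∣ f j (u p) - r)
    (C δ : ℝ) (hC : 0 ≤ C) (hδ : 0 < δ) (hδ2 : δ ≤ 1 / 2)
    (hU : ∀ p : ℕ, p.Prime → B < p → ∀ j, ∀ r : ZMod p, Polynomial.aeval r (D j) ≠ 0 →
      |(p : ℝ) * (Nat.card {x : Fin d → ZMod p // φ j p x = r} : ℝ) - (p : ℝ) ^ d| ≤
        C * (p : ℝ) ^ d * (p : ℝ) ^ (-δ))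
    (hP : ∀ p : ℕ, p.Prime → B < p → ∀ i j, i ≠ j → ∀ r s : ZMod p, Polynomial.aeval r (D i) ≠ 0 →
      Polynomial.aeval s (D j) ≠ 0 →
      (p : ℝ) ^ 2 * (Nat.card {x : Fin d → ZMod p // φ i p x = r ∧ φ j p x = s} : ℝ) ≤
        C * (p : ℝ) ^ d) :
    ∃ c : ℝ, 0 < c ∧ ∃ Z₀ : ℝ, ∀ Z : ℝ, Z₀ ≤ Z → ∀ (α : Type) (s : Finset α) (w : α → Fin d → ℤ),
      s.Nonempty → WellDist Z s w → ∃ a ∈ s, ∀ j, ∀ h : ℤ, |(h : ℝ)| ≤ c * ff Z →
        ∃ p : ℕ, p.Prime ∧ A < p ∧ (p : ℝ) ≤ Z ^ (1 / 10 : ℝ) ∧ (p : ℤ) ∣ f j (w a) + h := by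
  obtain ⟨E, hEd⟩ : ∃ E : ℕ, ∀ j, (D j).natDegree + 1 ≤ E := by
    refine ⟨∑ j : ι, ((D j).natDegree + 1), fun j => ?_⟩
    exact Finset.single_le_sum (f := fun j : ι => (D j).natDegree + 1) (fun _ _ => Nat.zero_le _) (mem_univ j)
  obtain ⟨c₀, hc₀, X₁, hcov⟩ := mcovA2 d (2 * C) δ E (by positivity) hδ
  obtain ⟨Cs, hCs, y₀, hsur⟩ := survivors2 B
  obtain ⟨y₁, hw⟩ := ev_w0
  obtain ⟨y₂, hw2⟩ := ev_w0_large B
  obtain ⟨c₁, hc₁def⟩ : ∃ c₁ : ℝ, c₁ = min c₀ 1 / ((Fintype.card ι : ℝ) + 1) := ⟨_, rfl⟩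
  have hm0 : 0 < min c₀ 1 := lt_min hc₀ one_pos
  have hι0 : (0 : ℝ) < (Fintype.card ι : ℝ) + 1 := by positivity
  have hc₁ : 0 < c₁ := by rw [hc₁def]; positivity
  obtain ⟨c, hc, X₂, hana⟩ := ana (y₀ := max y₀ (max (max y₁ y₂) 10)) hc₁ hCs
  obtain ⟨X₃, hev⟩ := ev_pow
  obtain ⟨L₁, hmore⟩ := ev_more 1 one_pos
  obtain ⟨L₂, hL₂⟩ := ev_dim d (2 * C) δ hδ
  choose H hH1 hH using fun j => poly_size (D j)
  obtain ⟨V, hV⟩ : ∃ V : ℝ, V = ∑ j : ι, H j := ⟨_, rfl⟩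
  have hVb : ∀ j, H j ≤ V := by
    intro j
    rw [hV]
    exact Finset.single_le_sum (f := fun j : ι => H j) (fun j _ => by linarith [hH1 j]) (mem_univ j)
  refine ⟨c, hc, max (max (max X₁ X₂) X₃) (Real.exp (max (max L₁ L₂) (max V 1))), fun Z hZ' α s w hsne hwd => ?_⟩
  obtain ⟨hZ1, hZ4⟩ := max_le_iff.1 hZ'
  obtain ⟨hZ2, hZ3⟩ := max_le_iff.1 hZ1
  obtain ⟨hZa, hZb⟩ := max_le_iff.1 hZ2
  obtain ⟨R, hR⟩ : ∃ R : ℕ, R = ⌊c * ff Z⌋₊ := ⟨_, rfl⟩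
  obtain ⟨L, hL⟩ : ∃ L : ℝ, L = Real.log Z := ⟨_, rfl⟩
  obtain ⟨y, hy⟩ : ∃ y : ℝ, y = Real.log Z / 10 := ⟨_, rfl⟩
  obtain ⟨a1, a2, a3, a4, a5, a6, a7, a8, a9, a10, a11, a12, a13, a14, a15, a16, a17⟩ :=
    hana Z hZb y _ hy rfl R hR
  obtain ⟨b1, b2, b3, b4⟩ := hev Z hZ3
  obtain ⟨a3a, a3b⟩ := max_le_iff.1 a3
  obtain ⟨a3b, a3c⟩ := max_le_iff.1 a3b
  obtain ⟨a3b, a3d⟩ := max_le_iff.1 a3b
  have hBw : (B : ℝ) ≤ w0 y := hw2 y a3d
  have hs := hsur y a3a R a5 a7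
  rw [← hL] at b1 b3
  have hZ0 : (0 : ℝ) < Z := by linarith
  have hLL' : max (max L₁ L₂) (max V 1) ≤ L := by
    rw [hL, ← Real.log_exp (max (max L₁ L₂) (max V 1))]
    exact Real.log_le_log (Real.exp_pos _) hZ4
  have hLL : L₁ ≤ L := ((le_max_left _ _).trans (le_max_left _ _)).trans hLL'
  obtain ⟨-, kC⟩ := hL₂ L (((le_max_right _ _).trans (le_max_left _ _)).trans hLL')
  have hVL : V ≤ L := ((le_max_left _ _).trans (le_max_right _ _)).trans hLL'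
  have hL1 : 1 ≤ L := ((le_max_right _ _).trans (le_max_right _ _)).trans hLL'
  obtain ⟨-, -, k3⟩ := hmore L hLL
  have hwy : w0 y ≤ y := by
    have := hw y a3b
    linarith
  have hBp : ∀ p : ℕ, (Real.log Z) ^ 2 < p → B < p := by
    intro p hp
    have h1 : (B : ℝ) < p := by linarith
    exact_mod_cast h1
  -- the local classes
  obtain ⟨uc, huc⟩ : ∃ uc : ℕ → Fin d → ℤ, uc = fun p : ℕ => if (p : ℝ) ≤ w0 y then u p else v p := ⟨_, rfl⟩
  have huc1 : ∀ p : ℕ, (p : ℝ) ≤ w0 y → uc p = u p := by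
    intro p hp; rw [huc]; simp only; rw [if_pos hp]
  have huc2 : ∀ p : ℕ, w0 y < (p : ℝ) → uc p = v p := by
    intro p hp; rw [huc]; simp only; rw [if_neg (not_le.2 hp)]
  -- the small primes
  obtain ⟨P, hP'⟩ : ∃ P : ℕ, P = primorial ⌊y⌋₊ := ⟨_, rfl⟩
  have hP0 : 0 < P := by rw [hP']; exact primorial_pos _
  have hPdvd : ∀ p : ℕ, p.Prime → (p : ℝ) ≤ y → (p : ℤ) ∣ (P : ℤ) := by
    intro p hp hpy
    have hpy' : p ≤ ⌊y⌋₊ := Nat.le_floor hpy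
    rw [hP', primorial]
    have : p ∈ (Finset.range (⌊y⌋₊ + 1)).filter Nat.Prime := by
      rw [Finset.mem_filter, Finset.mem_range]
      exact ⟨by omega, hp⟩
    exact_mod_cast Finset.dvd_prod_of_mem _ this
  have hcrt : ∀ i : Fin d, ∃ r : ℤ, ∀ p ∈ (Finset.range (⌊y⌋₊ + 1)).filter Nat.Prime,
      ((p : ℕ) : ℤ) ∣ r - uc p i := by
    intro i
    refine crt_int ((Finset.range (⌊y⌋₊ + 1)).filter Nat.Prime) (fun p : ℕ => (p : ℤ)) ?_ (fun p => uc p i)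
    intro p hp q hq hpq
    exact Nat.isCoprime_iff_coprime.2
      ((Nat.coprime_primes (mem_filter.1 hp).2 (mem_filter.1 hq).2).2 hpq)
  choose b0 hb0 using hcrt
  -- the survivors
  obtain ⟨S₀, hS₀⟩ : ∃ S₀ : ι → Finset ℤ, S₀ = fun j => (Finset.Icc (-(R : ℤ)) R).filter (fun h => h ≠ 0 ∧
      (∀ p : ℕ, p.Prime → B < p → (p : ℝ) ≤ w0 y → ¬ ((p : ℤ) ∣ f j (u p) + h)) ∧
      ∀ p : ℕ, p.Prime → w0 y < p → (p : ℝ) ≤ y → ¬ (p : ℤ) ∣ h) := ⟨_, rfl⟩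
  have hS₀card : ∀ j, ((S₀ j).card : ℝ) ≤ c₁ * Real.log Z := by
    intro j
    refine le_trans ?_ ((hs (fun p => f j (u p)) (fun p hp h1 _ => hu p hp h1 j)).trans a8)
    rw [hS₀]
  have hS₀b : ∀ j, ∀ h ∈ S₀ j, h ≠ 0 ∧ |(h : ℝ)| ≤ L ^ (11 / 10 : ℝ) := by
    intro j h hh
    rw [hS₀] at hh
    simp only at hh
    rw [Finset.mem_filter, Finset.mem_Icc] at hh
    refine ⟨hh.2.1, ?_⟩
    have h1 : |h| ≤ (R : ℤ) := abs_le.mpr hh.1
    have h2 : |(h : ℝ)| ≤ (R : ℝ) := by exact_mod_cast h1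
    refine h2.trans (a7.trans ?_)
    rw [hy, hL]
    exact b2
  obtain ⟨T, hT⟩ : ∃ T : Finset (ι × ℤ), T = (univ.biUnion (fun j => (S₀ j).image (fun h => (j, h)))).filter
      (fun k => (D k.1).eval (-k.2) ≠ 0) := ⟨_, rfl⟩
  have hTmem : ∀ k : ι × ℤ, k ∈ T ↔ k.2 ∈ S₀ k.1 ∧ (D k.1).eval (-k.2) ≠ 0 := by
    intro k
    rw [hT, mem_filter, mem_biUnion]
    constructor
    · rintro ⟨⟨j, -, hj⟩, h0⟩
      rw [mem_image] at hj
      obtain ⟨h, hh, rfl⟩ := hj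
      exact ⟨hh, h0⟩
    · rintro ⟨h, h0⟩
      exact ⟨⟨k.1, mem_univ _, mem_image.2 ⟨k.2, h, rfl⟩⟩, h0⟩
  have hTb : ∀ k ∈ T, k.2 ≠ 0 ∧ |(k.2 : ℝ)| ≤ L ^ (11 / 10 : ℝ) := by
    intro k hk
    exact hS₀b _ _ ((hTmem k).1 hk).1
  have hTcard : (T.card : ℝ) ≤ min c₀ 1 * Real.log Z := by
    have h1 : T.card ≤ ∑ j : ι, (S₀ j).card := by
      rw [hT]
      refine (card_filter_le _ _).trans ?_
      refine card_biUnion_le.trans ?_
      exact Finset.sum_le_sum fun j _ => card_image_le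
    have h2 : (T.card : ℝ) ≤ ∑ j : ι, ((S₀ j).card : ℝ) := by exact_mod_cast h1
    calc (T.card : ℝ) ≤ ∑ j : ι, ((S₀ j).card : ℝ) := h2
      _ ≤ ∑ j : ι, (c₁ * Real.log Z) := Finset.sum_le_sum fun j _ => hS₀card j
      _ = Fintype.card ι * (c₁ * Real.log Z) := by
          rw [Finset.sum_const, card_univ, nsmul_eq_mul]
      _ ≤ ((Fintype.card ι : ℝ) + 1) * (c₁ * Real.log Z) := by
          apply mul_le_mul_of_nonneg_right (by linarith)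
          have : 0 ≤ Real.log Z := a2
          positivity
      _ = min c₀ 1 * Real.log Z := by
          rw [hc₁def]
          field_simp
  have hTL : (T.card : ℝ) ≤ L := by
    refine hTcard.trans ?_
    rw [← hL]
    calc min c₀ 1 * L ≤ 1 * L := mul_le_mul_of_nonneg_right (min_le_right _ _) (by linarith)
      _ = L := one_mul L
  have hL110 : 0 ≤ L ^ (11 / 10 : ℝ) := Real.rpow_nonneg (by linarith) _
  -- the bad primes
  obtain ⟨bad, hbad⟩ : ∃ bad : ℕ → ι × ℤ → Prop, bad = fun (p : ℕ) (k : ι × ℤ) => (p : ℤ) ∣ (D k.1).eval (-k.2) := ⟨_, rfl⟩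
  have hbadn : ∀ p : ℕ, ∀ k : ι × ℤ, ¬ bad p k →
      Polynomial.aeval (-((k.2 : ℤ) : ZMod p)) (D k.1) ≠ 0 := by
    intro p k hk h0
    apply hk
    rw [hbad]
    have h1 := aeval_zmod (D k.1) p (-k.2)
    push_cast at h1
    rw [h1] at h0
    exact (ZMod.intCast_zmod_eq_zero_iff_dvd _ p).1 h0
  have hdgood : ∀ p : ℕ, p.Prime → (Real.log Z) ^ 2 < p → ∀ k : {k // k ∈ T}, ¬ bad p k.1 →
      |(p : ℝ) * Pool.Agent.Y837.SV.dens d (fun p => colG φ bad T p) p k - 1| ≤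
        2 * C * (p : ℝ) ^ (-δ) := by
    intro p hp hp1 k hk
    have hBp' := hBp p hp1
    rw [← hL] at hp1
    refine dens_bound3 φ bad C δ hC hδ2 p hp T ?_ ?_ ?_ ?_ k hk
    · intro k hk hkb
      exact hU p hp hBp' k.1 _ (hbadn p k hkb)
    · intro k hk k' hk' hkb hkb' hkk
      exact hP p hp hBp' k.1 k'.1 hkk _ _ (hbadn p k hkb) (hbadn p k' hkb')
    · intro k hk k' hk' hkk hne
      refine inj_of_small k3 (hTb k hk).2 (hTb k' hk').2 (fun h => hne (Prod.ext hkk h)) hp1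
    · have : (T.card : ℝ) ^ 2 ≤ L ^ 2 := pow_le_pow_left₀ (Nat.cast_nonneg _) hTL 2
      linarith
  have hLsq : 1 ≤ L ^ 2 := one_le_pow₀ hL1
  have hdens1 : ∀ p : ℕ, p.Prime → (Real.log Z) ^ 2 < p → (p : ℝ) ≤ Z ^ (1 / 10 : ℝ) →
      ∀ k : {k // k ∈ T}, |(p : ℝ) * Pool.Agent.Y837.SV.dens d (fun p => colG φ bad T p) p k - 1| ≤ 1 := by
    intro p hp hp1 hp2 k
    by_cases hk : bad p k.1
    · rw [dens_bad φ bad T p k hk, mul_zero, zero_sub, abs_neg, abs_one]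
    · refine (hdgood p hp hp1 k hk).trans (le_trans ?_ kC)
      apply mul_le_mul_of_nonneg_left _ (by positivity)
      rw [← hL] at hp1
      exact Real.rpow_le_rpow_of_nonpos (by positivity) hp1.le (by linarith)
  have hdens2 : ∀ k : {k // k ∈ T}, ∃ Bd : Finset ℕ, Bd.card ≤ E ∧
      ∀ p : ℕ, p.Prime → (Real.log Z) ^ 2 < p → (p : ℝ) ≤ Z ^ (1 / 10 : ℝ) → p ∉ Bd →
        |(p : ℝ) * Pool.Agent.Y837.SV.dens d (fun p => colG φ bad T p) p k - 1| ≤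
          2 * C * (p : ℝ) ^ (-δ) := by
    intro k
    have hk := (hTmem k.1).1 k.2
    refine ⟨(((D k.1.1).eval (-k.1.2)).natAbs.primeFactors).filter (fun p : ℕ => L ^ 2 < p), ?_, ?_⟩
    · apply bad_card hk.2 hLsq
      have h1 := hH k.1.1 (-k.1.2) (L ^ (11 / 10 : ℝ)) (Real.one_le_rpow hL1 (by norm_num)) (by
        push_cast
        rw [abs_neg]
        exact (hTb k.1 k.2).2)
      refine h1.trans ?_
      have h2 : L ^ (11 / 10 : ℝ) ≤ L ^ 2 := by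
        calc L ^ (11 / 10 : ℝ) ≤ L ^ (2 : ℝ) := Real.rpow_le_rpow_of_exponent_le hL1 (by norm_num)
          _ = L ^ 2 := by norm_num
      have h3 : H k.1.1 ≤ L ^ 2 := by
        have := hVb k.1.1
        nlinarith
      calc H k.1.1 * (L ^ (11 / 10 : ℝ)) ^ (D k.1.1).natDegree ≤ L ^ 2 * (L ^ 2) ^ (D k.1.1).natDegree := by
            apply mul_le_mul h3 (pow_le_pow_left₀ hL110 h2 _) (by positivity) (by positivity)
        _ = (L ^ 2) ^ ((D k.1.1).natDegree + 1) := by ring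
        _ ≤ (L ^ 2) ^ E := pow_le_pow_right₀ hLsq (hEd _)
    · intro p hp hp1 hp2 hpB
      apply hdgood p hp hp1 k
      intro hb
      apply hpB
      rw [mem_filter, Nat.mem_primeFactors]
      rw [← hL] at hp1
      refine ⟨⟨hp, ?_, Int.natAbs_ne_zero.2 hk.2⟩, hp1⟩
      rw [hbad] at hb
      have h1 := Int.natAbs_dvd_natAbs.2 hb
      rwa [Int.natAbs_natCast] at h1
  obtain ⟨a, has, hx2, hx3⟩ := hcov Z hZa {k // k ∈ T} (by
      rw [Fintype.card_coe]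
      refine hTcard.trans ?_
      exact mul_le_mul_of_nonneg_right (min_le_left _ _) a2)
    (fun p => colG φ bad T p)
    hdens1 hdens2
    P hP0 (by rw [hP']; exact a11)
    (by
      intro p hp hpP
      rw [hP', primorial, Prime.dvd_finsetProd_iff hp.prime] at hpP
      obtain ⟨p', hp', hpp'⟩ := hpP
      rw [Finset.mem_filter, Finset.mem_range] at hp'
      have h4 : p = p' := (Nat.prime_dvd_prime_iff_eq hp hp'.2).1 hpp'
      have h5 : (p : ℝ) ≤ y := by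
        have : p ≤ ⌊y⌋₊ := by omega
        calc (p : ℝ) ≤ (⌊y⌋₊ : ℝ) := by exact_mod_cast this
          _ ≤ y := Nat.floor_le a4
      linarith)
    b0 α s w hsne hwd
  obtain ⟨x, hx⟩ : ∃ x : Fin d → ℤ, x = w a := ⟨_, rfl⟩
  rw [← hx] at hx2 hx3
  refine ⟨a, has, fun j h hh => ?_⟩
  rw [← hx]
  have hyZ : y ≤ Z ^ (1 / 10 : ℝ) := by
    have h1 := Real.log_le_rpow_div hZ0.le (show (0 : ℝ) < 1 / 10 by norm_num)
    rw [hy]
    linarith
  have hhR : |h| ≤ (R : ℤ) := by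
    have h1 : (h.natAbs : ℝ) ≤ c * ff Z := by
      rw [Nat.cast_natAbs]
      push_cast
      exact hh
    have h2 : h.natAbs ≤ R := by rw [hR]; exact Nat.le_floor h1
    rw [Int.abs_eq_natAbs]
    exact_mod_cast h2
  -- the value modulo a small prime
  have hval : ∀ p : ℕ, p.Prime → (p : ℝ) ≤ y → (p : ℤ) ∣ f j x - f j (uc p) := by
    intro p hp hpy
    have h1 : red d p x = red d p (uc p) := by
      funext i
      have h2 : (p : ℤ) ∣ x i - b0 i := (hPdvd p hp hpy).trans (hx2 i)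
      have h3 : (p : ℤ) ∣ b0 i - uc p i := hb0 i p (by
        have hpy' : p ≤ ⌊y⌋₊ := Nat.le_floor hpy
        rw [Finset.mem_filter, Finset.mem_range]
        exact ⟨by omega, hp⟩)
      have h4 : (p : ℤ) ∣ x i - uc p i := by
        have := dvd_add h2 h3
        have e : x i - b0 i + (b0 i - uc p i) = x i - uc p i := by ring
        rwa [e] at this
      have h5 := (ZMod.intCast_zmod_eq_zero_iff_dvd _ p).2 h4
      push_cast at h5
      exact sub_eq_zero.1 h5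
    rw [← ZMod.intCast_zmod_eq_zero_iff_dvd]
    push_cast
    rw [hf, hf, h1, sub_self]
  have hmed : ∀ p : ℕ, p.Prime → w0 y < (p : ℝ) → (p : ℝ) ≤ y → (p : ℤ) ∣ f j x := by
    intro p hp h1 h2
    have h3 := hval p hp h2
    rw [huc2 p h1] at h3
    have h4 : B < p := by
      have : (B : ℝ) < p := lt_of_le_of_lt hBw h1
      exact_mod_cast this
    have h5 := dvd_add h3 (hv p hp h4 j)
    rwa [sub_add_cancel] at h5
  have hsml : ∀ p : ℕ, p.Prime → (p : ℝ) ≤ w0 y → (p : ℤ) ∣ f j x - f j (u p) := by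
    intro p hp h1
    have h3 := hval p hp (h1.trans hwy)
    rwa [huc1 p h1] at h3
  by_cases h0 : h = 0
  · -- a medium prime
    obtain ⟨p, hp, hp1, hp2⟩ := exists_medium a3c (hw y a3b)
    refine ⟨p, hp, ?_, hp2.trans hyZ, ?_⟩
    · have : (B : ℝ) < p := lt_of_le_of_lt hBw hp1
      have : B < p := by exact_mod_cast this
      omega
    rw [h0, add_zero]
    exact hmed p hp hp1 hp2
  by_cases hex : (D j).eval (-h) = 0
  · obtain ⟨p, hp, hpA, hp1, hp2⟩ := hEx j _ hex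
    have hpw : (p : ℝ) ≤ w0 y := by
      have : (p : ℝ) ≤ B := by exact_mod_cast hp1
      linarith
    refine ⟨p, hp, hpA, (hpw.trans hwy).trans hyZ, ?_⟩
    have h1 := dvd_add (hsml p hp hpw) hp2
    have e : f j x - f j (u p) + (f j (u p) - -h) = f j x + h := by ring
    rwa [e] at h1
  by_cases hmem' : h ∈ S₀ j
  · have hmem : ((j, h) : ι × ℤ) ∈ T := by
      rw [hTmem]
      exact ⟨hmem', hex⟩
    obtain ⟨p, hp1, hp2, hp3, hp4⟩ := hx3 ⟨(j, h), hmem⟩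
    refine ⟨p, hp1, lt_of_le_of_lt hAB (hBp p hp2), hp3, ?_⟩
    have h1 := colG_kill hp4
    unfold kill at h1
    simp only at h1
    rw [← ZMod.intCast_zmod_eq_zero_iff_dvd]
    push_cast
    rw [hf]
    exact h1
  · rw [hS₀] at hmem'
    simp only at hmem'
    rw [Finset.mem_filter, Finset.mem_Icc] at hmem'
    by_cases hc1 : ∃ p : ℕ, p.Prime ∧ B < p ∧ (p : ℝ) ≤ w0 y ∧ (p : ℤ) ∣ f j (u p) + h
    · obtain ⟨p, hp, hpB, hp1, hp2⟩ := hc1
      refine ⟨p, hp, lt_of_le_of_lt hAB hpB, (hp1.trans hwy).trans hyZ, ?_⟩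
      have h1 := dvd_add (hsml p hp hp1) hp2
      have e : f j x - f j (u p) + (f j (u p) + h) = f j x + h := by ring
      rwa [e] at h1
    by_cases hc2 : ∃ p : ℕ, p.Prime ∧ w0 y < (p : ℝ) ∧ (p : ℝ) ≤ y ∧ (p : ℤ) ∣ h
    · obtain ⟨p, hp, hp1, hp2, hp3⟩ := hc2
      refine ⟨p, hp, ?_, hp2.trans hyZ, ?_⟩
      · have : (B : ℝ) < p := lt_of_le_of_lt hBw hp1
        have : B < p := by exact_mod_cast this
        omega
      exact dvd_add (hmed p hp hp1 hp2) hp3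
    exfalso
    apply hmem'
    push Not at hc1 hc2
    exact ⟨abs_le.1 hhR, h0, fun p hp hpB hp2 => hc1 p hp hpB hp2, fun p hp hp1 hp2 => hc2 p hp hp1 hp2⟩

end Pool.Agent.L7h72.NQ
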