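import Pool.Agent.L7h72.NQ.FamA
import Pool.Agent.L7h72.NP.Main
import Pool.Agent.N542.PT.Real

set_option autoImplicit false
set_option linter.unusedVariables false

/-! # All noncomposite polynomials at one member of a well distributed family of points (project NQ, helper72) -/

namespace Pool.Agent.L7h72.NQ

open MvPolynomial
open Pool.Agent.H256R2.SC (ff)
open Pool.Agent.H256R2.SC.LG (ana)
open Pool.Agent.N542.PT (WellDist)
open Pool.Agent.L7h72.NP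

/-- **all noncomposite polynomials of bounded degree and height at once** -/
theorem all_polyA (k : ℕ) : ∃ c : ℝ, 0 < c ∧ ∃ Z₀ : ℝ, ∀ Z : ℝ, Z₀ ≤ Z →
    ∀ (α : Type) (s : Finset α) (w : α → Fin 2 → ℤ), s.Nonempty → WellDist Z s w → ∃ a ∈ s,
      ∀ F : MvPolynomial (Fin 2) ℤ, F.totalDegree ≤ k → (∀ m, |F.coeff m| ≤ k) → NC F →
        ∀ n : ℤ, |(n : ℝ) - eval (w a) F| ≤ c * ff Z →
          ∃ p : ℕ, p.Prime ∧ (p : ℝ) ≤ Z ^ (1 / 10 : ℝ) ∧ (p : ℤ) ∣ n := by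
  classical
  obtain ⟨S, hS⟩ : ∃ S : Finset (MvPolynomial (Fin 2) ℤ), ∀ F, F ∈ S ↔
      ((F.totalDegree ≤ k ∧ ∀ m, |F.coeff m| ≤ k) ∧ NC F) := by
    refine ⟨(finite_family k).toFinset.filter NC, fun F => ?_⟩
    rw [Finset.mem_filter, Set.Finite.mem_toFinset]
    rfl
  obtain ⟨T, hT1, hT2, hT3⟩ := norm_family (fun F => NC F ∧ F.coeff 0 = 0) (by
    rintro F u hu ⟨h1, h2⟩
    refine ⟨NC_mul h1 hu, ?_⟩
    rw [coeff_C_mul, h2, mul_zero]) (S.image (fun F => F - C (F.coeff 0))) (by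
    intro G hG
    rw [Finset.mem_image] at hG
    obtain ⟨F, hF, rfl⟩ := hG
    refine ⟨NC_sub ((hS F).1 hF).2 _, ?_⟩
    rw [coeff_sub, coeff_C, if_pos rfl, sub_self])
  -- the multiplier of each polynomial
  have hex : ∀ F : {F // F ∈ S}, ∃ G : {G // G ∈ T}, ∃ a : ℤ, a ≠ 0 ∧ C a * (F.1 - C (F.1.coeff 0)) = G.1 := by
    intro F
    obtain ⟨G, hG, a, ha, haG⟩ := hT2 _ (Finset.mem_image.2 ⟨F.1, F.2, rfl⟩)
    exact ⟨⟨G, hG⟩, a, ha, haG⟩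
  choose g a ha hag using hex
  obtain ⟨A, hA⟩ : ∃ A : ℕ, ∀ F, (a F).natAbs ≤ A := by
    refine ⟨∑ F, (a F).natAbs, fun F => ?_⟩
    exact Finset.single_le_sum (f := fun F => (a F).natAbs) (fun _ _ => Nat.zero_le _) (Finset.mem_univ F)
  have hA' : ∀ F, |((a F : ℤ) : ℝ)| ≤ A := by
    intro F
    have h1 := hA F
    have h2 : (((a F).natAbs : ℕ) : ℝ) = |((a F : ℤ) : ℝ)| := by
      rw [Nat.cast_natAbs]
      push_cast
      rfl
    rw [← h2]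
    exact_mod_cast h1
  obtain ⟨c, hc, Z₀, hmain⟩ := familyA (fun G : {G // G ∈ T} => G.1) (fun G => (hT1 G.1 G.2).1)
    (fun G => (hT1 G.1 G.2).2) (fun G G' a b ha hb hab => Subtype.ext (hT3 _ G.2 _ G'.2 a b ha hb hab)) A
  obtain ⟨X₂, hX₂⟩ := ff_large (2 * (A * k) / c)
  refine ⟨c / (2 * (A + 1)), by positivity, max Z₀ X₂, fun Z hZ α s w hsne hwd => ?_⟩
  obtain ⟨q1, q2⟩ := max_le_iff.1 hZ
  obtain ⟨b, hbs, hx2⟩ := hmain Z q1 α s w hsne hwd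
  obtain ⟨x, hx⟩ : ∃ x : Fin 2 → ℤ, x = w b := ⟨_, rfl⟩
  rw [← hx] at hx2
  refine ⟨b, hbs, fun F hF1 hF2 hF3 n hn => ?_⟩
  rw [← hx] at hn
  have hF : F ∈ S := (hS F).2 ⟨⟨hF1, hF2⟩, hF3⟩
  obtain ⟨Fs, hFs⟩ : ∃ Fs : {F // F ∈ S}, Fs.1 = F := ⟨⟨F, hF⟩, rfl⟩
  have hG : eval x (g Fs).1 = a Fs * (eval x F - F.coeff 0) := by
    rw [← hag Fs, hFs, map_mul, eval_C, map_sub, eval_C]
  have hff : 2 * (A * k) / c ≤ ff Z := hX₂ Z q2
  rw [div_le_iff₀ hc] at hff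
  have hA0 : (0 : ℝ) ≤ A := Nat.cast_nonneg A
  have hff0 : 0 ≤ ff Z := by
    have h1 : 0 ≤ c / (2 * (A + 1)) * ff Z := (abs_nonneg _).trans hn
    have h2 : 0 < c / (2 * ((A : ℝ) + 1)) := by positivity
    exact nonneg_of_mul_nonneg_right h1 h2
  obtain ⟨p, hp, hpA, hp1, hp2⟩ := hx2 (g Fs) (a Fs * n - eval x (g Fs).1) (by
    rw [hG]
    push_cast
    have e1 : (a Fs : ℝ) * n - a Fs * (eval x F - F.coeff 0) = a Fs * (n - eval x F) + a Fs * F.coeff 0 := by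
      ring
    rw [e1]
    have h1 : |(a Fs : ℝ) * (n - eval x F)| ≤ A * (c / (2 * (A + 1)) * ff Z) := by
      rw [abs_mul]
      exact mul_le_mul (hA' Fs) hn (abs_nonneg _) hA0
    have h2 : |(a Fs : ℝ) * (F.coeff 0 : ℤ)| ≤ A * k := by
      rw [abs_mul]
      have h3 : |((F.coeff 0 : ℤ) : ℝ)| ≤ k := by exact_mod_cast hF2 0
      exact mul_le_mul (hA' Fs) h3 (abs_nonneg _) hA0
    have h3 : (A : ℝ) * (c / (2 * (A + 1)) * ff Z) ≤ c * ff Z / 2 := by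
      have e2 : (A : ℝ) * (c / (2 * (A + 1)) * ff Z) = (A / (A + 1)) * (c * ff Z / 2) := by
        field_simp
      rw [e2]
      have h4 : (A : ℝ) / (A + 1) ≤ 1 := by
        rw [div_le_one (by positivity)]
        linarith
      have h5 : 0 ≤ c * ff Z / 2 := by positivity
      calc (A : ℝ) / (A + 1) * (c * ff Z / 2) ≤ 1 * (c * ff Z / 2) := mul_le_mul_of_nonneg_right h4 h5
        _ = _ := one_mul _
    calc |(a Fs : ℝ) * (n - eval x F) + a Fs * F.coeff 0| ≤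
          |(a Fs : ℝ) * (n - eval x F)| + |(a Fs : ℝ) * (F.coeff 0 : ℤ)| := abs_add_le _ _
      _ ≤ c * ff Z / 2 + A * k := by linarith
      _ ≤ c * ff Z := by linarith)
  refine ⟨p, hp, hp1, ?_⟩
  have e : eval x (g Fs).1 + (a Fs * n - eval x (g Fs).1) = a Fs * n := by ring
  rw [e] at hp2
  have hpp : Prime (p : ℤ) := Nat.prime_iff_prime_int.1 hp
  rcases hpp.dvd_or_dvd hp2 with h1 | h1
  · exfalso
    have h2 := Int.natAbs_dvd_natAbs.2 h1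
    rw [Int.natAbs_natCast] at h2
    have h3 := Nat.le_of_dvd (Int.natAbs_pos.2 (ha Fs)) h2
    have h4 := hA Fs
    omega
  · exact h1


/-- the noncomposite polynomials of degree and height at most `k` -/
def NCk (k : ℕ) : Type :=
  {F : MvPolynomial (Fin 2) ℤ // F.totalDegree ≤ k ∧ (∀ m, |F.coeff m| ≤ k) ∧ NC F}

theorem crit_NC (k : ℕ) : Pool.Agent.N542.PT.Crit 2 (fun F : NCk k => F.1) := by
  obtain ⟨c, hc, Z₀, h⟩ := all_polyA k
  refine ⟨c, hc, Z₀, fun Z hZ α s w hs hw => ?_⟩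
  obtain ⟨a, ha, h2⟩ := h Z hZ α s w hs hw
  refine ⟨a, ha, fun F n hn => ?_⟩
  exact h2 F.1 F.2.1 F.2.2.1 F.2.2.2 n hn

end Pool.Agent.L7h72.NQ
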