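import Pool.Agent.L7h72.NQ.Wd
import Pool.Agent.N39.RG.Pairs

set_option autoImplicit false
set_option maxHeartbeats 4000000

/-! # Noncomposite polynomials at the representatives of families of points modulo a prime (project NQ, helper72) -/

namespace Pool.Agent.L7h72.NQ

open Finset Filter
open Pool.Agent.W147.PS (ff ff_compare ev_pow)
open Pool.Agent.N542.PT (Crit Good)
open Pool.Agent.N39.RG (fam fam_equi fam_to_index)

open scoped Classical in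
/-- the criterion for families of vectors modulo `p` with small exponential sums -/
theorem mainF {κ₀ : Type} (r : ℕ) (F : κ₀ → MvPolynomial (Fin r) ℤ) (hF : Crit r F) (δ : ℝ) (hδ : 0 < δ)
    (hδ1 : δ ≤ 1) :
    ∃ κ : ℝ, 0 < κ ∧ ∃ p₀ : ℕ, ∀ (p : ℕ) [Fact p.Prime], p₀ ≤ p →
    ∀ (ε : ℝ) (ι : Type) (S : Finset ι) (R : ι → Fin r → ZMod p), S.Nonempty →
    (∀ α : Fin r → ZMod p, α ≠ 0 →
      ‖∑ i ∈ S, (ZMod.stdAddChar (∑ j, α j * R i j) : ℂ)‖ ≤ S.card * (p : ℝ) ^ (-ε)) →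
    ∀ (M : Fin r → ℤ) (L : Fin r → ℕ), (∀ j, L j ≤ p) → (∀ j, (p : ℝ) ^ δ ≤ L j) →
      (p : ℝ) ^ ((r : ℝ) - ε + δ) ≤ ∏ j, (L j : ℝ) →
    (p : ℝ) ^ (-δ) * (S.card * ∏ j, ((L j : ℝ) / p)) ≤
      ((S.filter (fun i => ∃ z : Fin r → ℤ,
        (∀ j, M j < z j ∧ z j ≤ M j + L j ∧ ((z j : ℤ) : ZMod p) = R i j) ∧
          Good F (κ * ff p) ((p : ℝ) ^ δ) z)).card : ℝ) := by
  obtain ⟨η, hη⟩ : ∃ η : ℝ, η = δ / 8 := ⟨_, rfl⟩
  have hη0 : 0 < η := by rw [hη]; positivity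
  obtain ⟨κ, hκ, hmany⟩ := many_wd r F hF η hη0 (by linarith)
  refine ⟨κ, hκ, ?_⟩
  have e1 : ∀ᶠ x : ℝ in atTop, (Real.log x + 3) ^ r ≤ x ^ (δ / 4) := by
    have h1 : (fun x : ℝ => (Real.log x + 3) ^ r) =o[atTop] fun x : ℝ => x ^ (δ / 4) := by
      have h2 : (fun x : ℝ => (Real.log x + 3)) =O[atTop] Real.log :=
        (Asymptotics.isBigO_refl _ _).add (Real.isLittleO_const_log_atTop (c := 3)).isBigO
      have h4 : (fun x : ℝ => Real.log x ^ r) =o[atTop] fun x : ℝ => x ^ (δ / 4) := by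
        have h5 := isLittleO_log_rpow_rpow_atTop (s := δ / 4) (r : ℝ) (by positivity)
        refine h5.congr' ?_ (Filter.EventuallyEq.refl _ _)
        filter_upwards with x
        rw [Real.rpow_natCast]
      exact (h2.pow r).trans_isLittleO h4
    have h6 := h1.def (show (0 : ℝ) < 1 by norm_num)
    filter_upwards [h6, eventually_ge_atTop (1 : ℝ)] with x hx hx1
    have hl := Real.log_nonneg hx1
    rw [Real.norm_of_nonneg (by positivity), Real.norm_of_nonneg (by positivity), one_mul] at hx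
    exact hx
  obtain ⟨x₀, hx₀⟩ := eventually_atTop.mp (((e1.and hmany).and ((ev_pow (-δ) (-(δ / 2)) 16 (by linarith)).and
    (ev_pow 0 (δ / 4) (16 * 2 ^ r) (by positivity)))).and
    ((ev_pow (-(δ / 2)) (-η) 2 (by linarith)).and (eventually_gt_atTop (1 : ℝ))))
  obtain ⟨p₀, hp₀⟩ := exists_nat_ge x₀
  refine ⟨p₀, ?_⟩
  intro p hpF hpp ε ι S R hS hE M L hL hLB hvol
  obtain ⟨⟨⟨g1, hmany⟩, g2, g3⟩, g4, g5⟩ := hx₀ p (hp₀.trans (by exact_mod_cast hpp))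
  rw [Real.rpow_zero, mul_one] at g3
  have hp0 : (0 : ℝ) < p := by linarith
  have hmo : ∀ x y : ℝ, x ≤ y → (p : ℝ) ^ x ≤ (p : ℝ) ^ y := fun x y h =>
    Real.rpow_le_rpow_of_exponent_le g5.le h
  have hpow1 : ∀ x : ℝ, 0 ≤ x → 1 ≤ (p : ℝ) ^ x := fun x h => Real.one_le_rpow g5.le h
  have hpos : ∀ x : ℝ, 0 < (p : ℝ) ^ x := fun x => Real.rpow_pos_of_pos hp0 x
  have hprod : ∏ j, ((L j : ℝ) / p) = (∏ j, (L j : ℝ)) / (p : ℝ) ^ (r : ℝ) := by
    rw [prod_div_distrib, prod_const, card_univ, Fintype.card_fin, Real.rpow_natCast]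
  have hScard : (0 : ℝ) < S.card := by exact_mod_cast hS.card_pos
  obtain ⟨A, hA⟩ : ∃ A : ℝ, A = S.card * ∏ j, ((L j : ℝ) / p) := ⟨_, rfl⟩
  have hAlow : S.card * (p : ℝ) ^ (δ - ε) ≤ A := by
    rw [hA, hprod]
    apply mul_le_mul_of_nonneg_left _ hScard.le
    rw [le_div_iff₀ (Real.rpow_pos_of_pos hp0 _), ← Real.rpow_add hp0]
    refine le_trans (le_of_eq ?_) hvol
    congr 1
    ring
  have hA0 : 0 < A := lt_of_lt_of_le (mul_pos hScard (hpos _)) hAlow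
  obtain ⟨γ, hγ⟩ : ∃ γ : ℝ, γ = (p : ℝ) ^ (-η) / 4 := ⟨_, rfl⟩
  have hγ0 : 0 < γ := by rw [hγ]; exact div_pos (hpos _) (by norm_num)
  have hγ1 : γ ≤ 1 / 4 := by
    rw [hγ]
    have : (p : ℝ) ^ (-η) ≤ 1 := Real.rpow_le_one_of_one_le_of_nonpos g5.le (by linarith)
    linarith
  have hγl : (p : ℝ) ^ (-(δ / 2)) ≤ γ / 2 := by
    rw [hγ]
    have h1 : (p : ℝ) ^ (-(δ / 2)) * (p : ℝ) ^ (δ / 4) = (p : ℝ) ^ (-(δ / 4)) := by
      rw [← Real.rpow_add hp0]; congr 1; ring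
    have h2 : (p : ℝ) ^ (-(δ / 4)) ≤ (p : ℝ) ^ (-η) := hmo _ _ (by rw [hη]; linarith)
    have h3 : (8 : ℝ) ≤ (p : ℝ) ^ (δ / 4) := by
      have : (1 : ℝ) ≤ 2 ^ r := one_le_pow₀ (by norm_num)
      linarith
    have h4 := hpos (-(δ / 2))
    nlinarith
  obtain ⟨hcard, heq⟩ := fam_equi S hS R (S.card * (p : ℝ) ^ (-ε)) (by positivity) hE M L
    ((p : ℝ) ^ δ) γ ((p : ℝ) ^ η) (hpow1 _ hδ.le) hLB hL (hpow1 _ hη0.le)
    (by
      calc (p : ℝ) ^ η < (p : ℝ) ^ (1 : ℝ) := Real.rpow_lt_rpow_of_exponent_lt g5 (by linarith)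
        _ = p := Real.rpow_one _)
    (hmo _ _ (by linarith))
    (by
      rw [← hA]
      have h1 : (Real.log p + 3) ^ r ≤ γ / 2 * (p : ℝ) ^ δ := by
        have h2 : (p : ℝ) ^ (-(δ / 2)) * (p : ℝ) ^ δ ≤ γ / 2 * (p : ℝ) ^ δ :=
          mul_le_mul_of_nonneg_right hγl (hpos _).le
        have h3 : (p : ℝ) ^ (-(δ / 2)) * (p : ℝ) ^ δ = (p : ℝ) ^ (δ / 2) := by
          rw [← Real.rpow_add hp0]; congr 1; ring
        have h4 : (p : ℝ) ^ (δ / 4) ≤ (p : ℝ) ^ (δ / 2) := hmo _ _ (by linarith)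
        linarith
      calc S.card * (p : ℝ) ^ (-ε) * (Real.log p + 3) ^ r
          ≤ S.card * (p : ℝ) ^ (-ε) * (γ / 2 * (p : ℝ) ^ δ) :=
            mul_le_mul_of_nonneg_left h1 (mul_pos hScard (hpos _)).le
        _ = γ / 2 * (S.card * ((p : ℝ) ^ δ * (p : ℝ) ^ (-ε))) := by ring
        _ = γ / 2 * (S.card * (p : ℝ) ^ (δ - ε)) := by
            rw [← Real.rpow_add hp0]; rfl
        _ ≤ γ / 2 * A := mul_le_mul_of_nonneg_left hAlow (by positivity))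
    (by
      rw [← mul_div_assoc, div_le_iff₀ (hpos _)]
      have h2 : (p : ℝ) ^ (-(δ / 2)) * (p : ℝ) ^ δ ≤ γ / 2 * (p : ℝ) ^ δ :=
        mul_le_mul_of_nonneg_right hγl (hpos _).le
      have h3 : (p : ℝ) ^ (-(δ / 2)) * (p : ℝ) ^ δ = (p : ℝ) ^ (δ / 2) := by
        rw [← Real.rpow_add hp0]; congr 1; ring
      have h4 : (p : ℝ) ^ (δ / 4) * (p : ℝ) ^ η ≤ (p : ℝ) ^ (δ / 2) := by
        rw [← Real.rpow_add hp0]
        exact hmo _ _ (by rw [hη]; linarith)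
      have h5 : 2 ^ r * (p : ℝ) ^ η ≤ (p : ℝ) ^ (δ / 4) * (p : ℝ) ^ η := by
        apply mul_le_mul_of_nonneg_right _ (hpos _).le
        have : (0 : ℝ) ≤ 2 ^ r := by positivity
        linarith
      linarith)
    (by linarith)
  rw [← hA] at hcard ⊢
  obtain ⟨s, hs⟩ : ∃ s : Finset (Σ _ : ι, (Fin r → ℤ)), s = fam S R M L := ⟨_, rfl⟩
  rw [← hs] at hcard heq
  have hscard : (0 : ℝ) < s.card := by linarith
  obtain ⟨G, hG, hG1, hG2⟩ := hmany _ s (fun z => z.2) (by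
      rw [← Finset.card_pos]
      exact_mod_cast hscard)
    (by
      intro q hq hqZ ρ
      have h1 := heq q hq hqZ ρ
      have h2 : (s.card : ℝ) * (4 * γ) = s.card * (p : ℝ) ^ (-η) := by rw [hγ]; ring
      rw [h2] at h1
      convert h1 using 4)
  have h1 := fam_to_index S R M L hL (fun z => Good F (κ * ff p) ((p : ℝ) ^ δ) z)
  have h2 : G ⊆ (fam S R M L).filter (fun z => Good F (κ * ff p) ((p : ℝ) ^ δ) z.2) := by
    intro z hz
    rw [mem_filter, ← hs]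
    refine ⟨hG hz, fun j n hn => ?_⟩
    obtain ⟨q, hq1, hq2, hq3⟩ := hG2 z hz j n hn
    exact ⟨q, hq1, hq2.trans (hmo _ _ (by linarith)), hq3⟩
  have h3 := (card_le_card h2).trans h1
  have h4 : (p : ℝ) ^ (-δ) * A ≤ G.card := by
    refine le_trans ?_ hG1
    have h5 : 2 * (p : ℝ) ^ (-δ) ≤ (p : ℝ) ^ (-η) := by
      have := hpos (-δ)
      have := hpos (-(δ / 2))
      linarith
    have h6 : A / 2 * (p : ℝ) ^ (-η) ≤ s.card * (p : ℝ) ^ (-η) :=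
      mul_le_mul_of_nonneg_right hcard (hpos _).le
    nlinarith
  refine h4.trans ?_
  exact_mod_cast h3

end Pool.Agent.L7h72.NQ
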