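import Pool.Agent.L7h72.NQ.MainA
import Pool.Agent.N542.PT.Real

set_option autoImplicit false
set_option maxHeartbeats 4000000

/-! # Many good members of a family which is well distributed with a power saving (project NQ, helper72) -/

namespace Pool.Agent.L7h72.NQ

open Finset Filter Topology
open Pool.Agent.H469R2.NK (e norm_e e_add)
open Pool.Agent.W147.PS (ff ff_compare ev_pow)
open Pool.Agent.Y961.JR (discJ ev_bounds)
open Pool.Agent.N542.PT (WellDist Crit Good ff_scaled)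

open scoped Classical

variable {ι : Type}

/-- many members are good -/
theorem many_wd (d : ℕ) (F : ι → MvPolynomial (Fin d) ℤ) (hF : Crit d F) (η : ℝ)
    (hη : 0 < η) (hη1 : η ≤ 1) :
    ∃ κ : ℝ, 0 < κ ∧ ∀ᶠ Z : ℝ in atTop, ∀ (α : Type) (s : Finset α) (w : α → Fin d → ℤ),
      s.Nonempty →
      (∀ q : ℕ, 1 ≤ q → (q : ℝ) ≤ Z ^ η → ∀ ρ : Fin d → ℤ,
        |((s.filter (fun i => ∀ j, (q : ℤ) ∣ w i j - ρ j)).card : ℝ) - s.card / (q : ℝ) ^ d| ≤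
          s.card * Z ^ (-η)) →
      ∃ G ⊆ s, (s.card : ℝ) * Z ^ (-η) ≤ (G.card : ℝ) ∧
        ∀ i ∈ G, Good F (κ * ff Z) (Z ^ η) (w i) := by
  obtain ⟨c, hc, X₀, hcr⟩ := hF
  have hd0 : (0 : ℝ) ≤ d := Nat.cast_nonneg d
  set θ : ℝ := η / ((d : ℝ) + 3) with hθ
  have hθ0 : 0 < θ := by positivity
  have hθη : θ ≤ η := div_le_self hη.le (by linarith)
  have hθ1 : θ ≤ 1 := hθη.trans hη1
  have hθd : θ * ((d : ℝ) + 1) < η := by
    have h1 : θ * ((d : ℝ) + 3) = η := by rw [hθ]; field_simp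
    nlinarith
  refine ⟨c * (θ / 32), by positivity, ?_⟩
  filter_upwards [ff_compare θ hθ0 hθ1, (tendsto_rpow_atTop hθ0).eventually_ge_atTop X₀,
    eventually_ge_atTop (1 : ℝ), ev_pow (-η) (-(θ * ((d : ℝ) + 1))) 4 (by linarith),
    ev_pow (-η) 0 4 (by linarith)] with Z hff hZX hZ1 hp1 hp2
  rw [Real.rpow_zero] at hp2
  intro α s w hs hwd
  have hZ0 : 0 < Z := by linarith
  have hspos : (0 : ℝ) < s.card := by exact_mod_cast Finset.card_pos.mpr hs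
  have hmono : ∀ x y : ℝ, x ≤ y → Z ^ x ≤ Z ^ y := fun x y h =>
    Real.rpow_le_rpow_of_exponent_le hZ1 h
  obtain ⟨G, hG⟩ : ∃ G : Finset α, G = s.filter (fun i => Good F (c * (θ / 32) * ff Z) (Z ^ η) (w i)) :=
    ⟨_, rfl⟩
  have hGs : G ⊆ s := by rw [hG]; exact filter_subset _ _
  have hkey : (s.card : ℝ) * Z ^ (-η) ≤ G.card := by
    by_contra hlt
    rw [not_le] at hlt
    obtain ⟨t, ht⟩ : ∃ t : Finset α, t = s \ G := ⟨_, rfl⟩
    have htcard : (t.card : ℝ) = s.card - G.card := by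
      rw [ht, card_sdiff_of_subset hGs, Nat.cast_sub (card_le_card hGs)]
    have hZη0 : 0 < Z ^ (-η) := Real.rpow_pos_of_pos hZ0 _
    have htbig : 3 / 4 * (s.card : ℝ) ≤ t.card := by
      rw [htcard]
      nlinarith
    have htne : t.Nonempty := by
      rw [← Finset.card_pos]
      have : (0 : ℝ) < t.card := by linarith
      exact_mod_cast this
    obtain ⟨i, hi, hi2⟩ := hcr (Z ^ θ) hZX α t w htne (by
      intro q hq hqX ρ
      have h1 := hwd q hq (hqX.trans (hmono _ _ hθη)) ρ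
      have hq1 : (1 : ℝ) ≤ q := by exact_mod_cast hq
      have hqd : (1 : ℝ) ≤ (q : ℝ) ^ d := one_le_pow₀ hq1
      obtain ⟨A, hA⟩ : ∃ A, A = s.filter (fun i => ∀ j, (q : ℤ) ∣ w i j - ρ j) := ⟨_, rfl⟩
      obtain ⟨B, hB⟩ : ∃ B, B = G.filter (fun i => ∀ j, (q : ℤ) ∣ w i j - ρ j) := ⟨_, rfl⟩
      have hBA : B ⊆ A := by
        rw [hA, hB]
        exact filter_subset_filter _ hGs
      have hBG : B.card ≤ G.card := by
        rw [hB]
        exact card_filter_le _ _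
      have h2 : t.filter (fun i => ∀ j, (q : ℤ) ∣ w i j - ρ j) = A \ B := by
        rw [ht, hA, hB]
        ext x
        simp only [Finset.mem_filter, Finset.mem_sdiff]
        tauto
      rw [h2, card_sdiff_of_subset hBA, Nat.cast_sub (card_le_card hBA), htcard]
      rw [← hA] at h1
      have h3 : (A.card : ℝ) - B.card - (s.card - G.card) / (q : ℝ) ^ d =
          (A.card - s.card / (q : ℝ) ^ d) + (G.card / (q : ℝ) ^ d - B.card) := by ring
      rw [h3]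
      have h4 : |(G.card : ℝ) / (q : ℝ) ^ d - B.card| ≤ G.card := by
        have h9 : (G.card : ℝ) / (q : ℝ) ^ d ≤ G.card := div_le_self (Nat.cast_nonneg _) hqd
        have h10 : 0 ≤ (G.card : ℝ) / (q : ℝ) ^ d := by positivity
        have h11 : (B.card : ℝ) ≤ G.card := by exact_mod_cast hBG
        have h12 : (0 : ℝ) ≤ B.card := Nat.cast_nonneg _
        rw [abs_le]
        constructor <;> linarith
      refine (abs_add_le _ _).trans ?_
      have h5 : (Z ^ θ) ^ (-((d : ℝ) + 1)) = Z ^ (-(θ * ((d : ℝ) + 1))) := by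
        rw [← Real.rpow_mul hZ0.le]
        congr 1
        ring
      rw [h5, ← htcard]
      calc |(A.card : ℝ) - s.card / (q : ℝ) ^ d| + |(G.card : ℝ) / (q : ℝ) ^ d - B.card| ≤
          s.card * Z ^ (-η) + G.card := add_le_add h1 h4
        _ ≤ 2 * (s.card * Z ^ (-η)) := by linarith
        _ ≤ 3 / 4 * s.card * (4 * Z ^ (-η)) := by nlinarith
        _ ≤ t.card * Z ^ (-(θ * ((d : ℝ) + 1))) := by
            apply mul_le_mul htbig hp1 (by positivity) (Nat.cast_nonneg _))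
    rw [ht, Finset.mem_sdiff] at hi
    apply hi.2
    rw [hG, mem_filter]
    refine ⟨hi.1, fun j n hn => ?_⟩
    obtain ⟨p, hp, hp1, hp2⟩ := hi2 j n (hn.trans (ff_scaled c θ Z hc hθ1 hZ1 hff.2))
    refine ⟨p, hp, hp1.trans ?_, hp2⟩
    rw [← Real.rpow_mul hZ0.le]
    apply hmono
    linarith
  refine ⟨G, hGs, hkey, fun i hi => ?_⟩
  rw [hG, mem_filter] at hi
  exact hi.2

/-- small exponential sums over residue classes imply good distribution of the vectors `(u, ⌊a⌋)` -/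
theorem wellDist_exp1 (r : ℕ) (hr : 1 ≤ r) : ∃ X₀ : ℝ, ∀ X : ℝ, X₀ ≤ X →
    ∀ (α : Type) (s : Finset α) (u : α → ℤ) (a : α → Fin r → ℝ),
    (∀ q : ℕ, 1 ≤ q → (q : ℝ) ≤ X ^ (2 / 5 : ℝ) → ∀ b : ℤ,
      |((s.filter (fun i => (q : ℤ) ∣ u i - b)).card : ℝ) - s.card / q| ≤
        s.card * X ^ (-(20 * ((r : ℝ) + 1) ^ 2)) ∧
      ∀ h : Fin r → ℤ, h ≠ 0 → (∀ j, |(h j : ℝ)| ≤ X ^ (10 * (r + 1))) →
      ‖∑ i ∈ s.filter (fun i => (q : ℤ) ∣ u i - b), e (∑ j, (h j : ℝ) * (a i j / q))‖ ≤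
        s.card * X ^ (-(20 * ((r : ℝ) + 1) ^ 2))) →
    ∀ q : ℕ, 1 ≤ q → (q : ℝ) ≤ X ^ (2 / 5 : ℝ) → ∀ ρ : Fin (r + 1) → ℤ,
      |((s.filter (fun i => ∀ j, (q : ℤ) ∣
        (Fin.cons (u i) (fun j => ⌊a i j⌋) : Fin (r + 1) → ℤ) j - ρ j)).card : ℝ) -
        s.card / (q : ℝ) ^ (r + 1)| ≤ s.card * X ^ (-(2 * ((r : ℝ) + 1))) := by
  obtain ⟨X₂, h2⟩ := eventually_atTop.mp (ev_bounds r (r + 1) hr (by omega))
  refine ⟨X₂, ?_⟩
  intro X hX α s u a hE q hq hqX ρ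
  obtain ⟨b1, b2⟩ := h2 X hX
  have hX0 : 0 < X := by linarith
  have hcast : (((r + 1 : ℕ) : ℝ)) = (r : ℝ) + 1 := by push_cast; rfl
  have hq0 : (0 : ℝ) < q := by exact_mod_cast hq
  have hq1 : (1 : ℝ) ≤ q := by exact_mod_cast hq
  obtain ⟨k1, k2, k3, k4⟩ := b2 q hq hqX s.card (Nat.cast_nonneg _)
  obtain ⟨g1, g2⟩ := hE q hq hqX (ρ 0)
  set s' := s.filter (fun i => (q : ℤ) ∣ u i - ρ 0) with hs'
  rw [hcast] at k4
  have hd := discJ hr s' a ⌈X ^ (3 * (r + 1))⌉₊ q k1 hq k2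
    (s.card * X ^ (-(20 * ((r : ℝ) + 1) ^ 2)))
    (by positivity) (fun h hh hh2 => g2 h hh (fun j => by
      have h5 : ((h j).natAbs : ℝ) < ((⌈X ^ (3 * (r + 1))⌉₊ : ℕ) : ℝ) ^ 3 := by
        exact_mod_cast hh2 j
      have h6 : |(h j : ℝ)| = ((h j).natAbs : ℝ) := by
        rw [Nat.cast_natAbs]; push_cast; rfl
      rw [h6]
      exact h5.le.trans k3)) (fun j => ρ j.succ)
  have hfil : (s.filter (fun i => ∀ j, (q : ℤ) ∣
      (Fin.cons (u i) (fun j => ⌊a i j⌋) : Fin (r + 1) → ℤ) j - ρ j)) =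
      s'.filter (fun i => ∀ j : Fin r, (q : ℤ) ∣ ⌊a i j⌋ - ρ j.succ) := by
    rw [hs', Finset.filter_filter]
    apply Finset.filter_congr
    intro i _
    rw [Fin.forall_fin_succ]
    simp only [Fin.cons_zero, Fin.cons_succ]
  rw [hfil]
  have hcard : (s'.card : ℝ) ≤ s.card := by
    exact_mod_cast Finset.card_filter_le _ _
  have t1 : (q : ℝ) ^ r * ((3 * (r : ℝ) + 4) * s'.card / (⌈X ^ (3 * (r + 1))⌉₊ : ℕ) +
      ((⌈X ^ (3 * (r + 1))⌉₊ : ℕ) : ℝ) ^ (3 * r) *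
        (s.card * X ^ (-(20 * ((r : ℝ) + 1) ^ 2)))) ≤
      s.card * X ^ (-(2 * ((r : ℝ) + 1))) / 2 := by
    refine le_trans ?_ k4
    gcongr
  have t2 : |(s'.card : ℝ) / (q : ℝ) ^ r - s.card / (q : ℝ) ^ (r + 1)| ≤
      s.card * X ^ (-(2 * ((r : ℝ) + 1))) / 2 := by
    have e1 : (s'.card : ℝ) / (q : ℝ) ^ r - s.card / (q : ℝ) ^ (r + 1) =
        (s'.card - s.card / q) / (q : ℝ) ^ r := by
      rw [pow_succ]
      field_simp
    have hqr : 1 ≤ (q : ℝ) ^ r := one_le_pow₀ hq1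
    rw [e1, abs_div, abs_of_pos (show (0 : ℝ) < (q : ℝ) ^ r by positivity)]
    refine (div_le_self (abs_nonneg _) hqr).trans (g1.trans ?_)
    rw [mul_div_assoc]
    apply mul_le_mul_of_nonneg_left _ (Nat.cast_nonneg _)
    have hr1 : (1 : ℝ) ≤ r := by exact_mod_cast hr
    calc X ^ (-(20 * ((r : ℝ) + 1) ^ 2)) ≤ X ^ (-(2 * ((r : ℝ) + 1)) + (-1)) := by
          apply Real.rpow_le_rpow_of_exponent_le (by linarith)
          nlinarith
      _ = X ^ (-(2 * ((r : ℝ) + 1))) * X ^ (-1 : ℝ) := Real.rpow_add hX0 _ _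
      _ ≤ X ^ (-(2 * ((r : ℝ) + 1))) * (1 / 2) := by
          apply mul_le_mul_of_nonneg_left _ (Real.rpow_nonneg hX0.le _)
          rw [Real.rpow_neg_one, ← one_div]
          exact one_div_le_one_div_of_le (by norm_num) (by linarith)
      _ = _ := by ring
  have t3 := hd.trans t1
  have t4 := abs_le.mp t3
  have t5 := abs_le.mp t2
  rw [abs_le]
  constructor <;> linarith [t4.1, t4.2, t5.1, t5.2]

/-- many good members, from exponential sums over residue classes -/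
theorem many_exp1 (r : ℕ) (hr : 1 ≤ r) (F : ι → MvPolynomial (Fin (r + 1)) ℤ) (hF : Crit (r + 1) F)
    (η : ℝ) (hη : 0 < η) (hη1 : η ≤ 1) :
    ∃ κ : ℝ, 0 < κ ∧ ∀ᶠ Z : ℝ in atTop, ∀ (α : Type) (s : Finset α) (u : α → ℤ) (a : α → Fin r → ℝ),
      s.Nonempty →
      (∀ q : ℕ, 1 ≤ q → (q : ℝ) ≤ Z ^ η → ∀ b : ℤ,
        |((s.filter (fun i => (q : ℤ) ∣ u i - b)).card : ℝ) - s.card / q| ≤ s.card * Z ^ (-η) ∧
        ∀ h : Fin r → ℤ, h ≠ 0 → (∀ j, |(h j : ℝ)| ≤ Z ^ η) →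
        ‖∑ i ∈ s.filter (fun i => (q : ℤ) ∣ u i - b), e (∑ j, (h j : ℝ) * (a i j / q))‖ ≤
          s.card * Z ^ (-η)) →
      ∃ G ⊆ s, (s.card : ℝ) * Z ^ (-η) ≤ (G.card : ℝ) ∧
        ∀ i ∈ G, Good F (κ * ff Z) (Z ^ η) (Fin.cons (u i) (fun j => ⌊a i j⌋)) := by
  have hr1 : (1 : ℝ) ≤ r := by exact_mod_cast hr
  obtain ⟨X₀, hX₀⟩ := wellDist_exp1 r hr
  set θ : ℝ := η / (20 * ((r : ℝ) + 1) ^ 2) with hθ
  have hr2 : (1 : ℝ) ≤ ((r : ℝ) + 1) ^ 2 := one_le_pow₀ (by linarith)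
  have hθ0 : 0 < θ := by positivity
  have hθη : θ ≤ η := div_le_self hη.le (by linarith)
  set θ' : ℝ := θ * (2 / 5) with hθ'
  have hθ'0 : 0 < θ' := by positivity
  have hθ'η : θ' ≤ η := by linarith
  obtain ⟨κ, hκ, hmany⟩ := many_wd (r + 1) F hF θ' hθ'0 (by linarith)
  refine ⟨κ, hκ, ?_⟩
  filter_upwards [hmany, (tendsto_rpow_atTop hθ0).eventually_ge_atTop X₀, eventually_ge_atTop (1 : ℝ)]
    with Z hm hZX hZ1
  intro α s u a hs hE
  have hZ0 : 0 < Z := by linarith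
  have hmono : ∀ x y : ℝ, x ≤ y → Z ^ x ≤ Z ^ y := fun x y h =>
    Real.rpow_le_rpow_of_exponent_le hZ1 h
  have hexp : (Z ^ θ) ^ (-(20 * ((r : ℝ) + 1) ^ 2)) = Z ^ (-η) := by
    rw [← Real.rpow_mul hZ0.le]
    congr 1
    rw [hθ]
    field_simp
  have hwd := hX₀ (Z ^ θ) hZX α s u a (by
    intro q hq hqX b
    obtain ⟨g1, g2⟩ := hE q hq (hqX.trans (by
      rw [← Real.rpow_mul hZ0.le]
      apply hmono
      linarith)) b
    rw [hexp]
    refine ⟨g1, fun h hh hhX => g2 h hh fun j => (hhX j).trans ?_⟩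
    rw [← Real.rpow_natCast, ← Real.rpow_mul hZ0.le]
    apply hmono
    push_cast
    have e1 : θ * (10 * ((r : ℝ) + 1)) * (2 * (r + 1)) = η := by rw [hθ]; field_simp; norm_num
    have e2 : 0 ≤ θ * (10 * ((r : ℝ) + 1)) := by positivity
    nlinarith)
  obtain ⟨G, hG, hG1, hG2⟩ := hm α s (fun i => Fin.cons (u i) (fun j => ⌊a i j⌋)) hs (by
    intro q hq hqZ ρ
    refine (hwd q hq (by
      rw [← Real.rpow_mul hZ0.le]
      exact hqZ) ρ).trans ?_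
    apply mul_le_mul_of_nonneg_left _ (Nat.cast_nonneg _)
    rw [← Real.rpow_mul hZ0.le]
    apply hmono
    nlinarith)
  refine ⟨G, hG, le_trans ?_ hG1, fun i hi j n hn => ?_⟩
  · apply mul_le_mul_of_nonneg_left _ (Nat.cast_nonneg _)
    apply hmono
    linarith
  · obtain ⟨p, hp, hp1, hp2⟩ := hG2 i hi j n hn
    exact ⟨p, hp, hp1.trans (hmono _ _ hθ'η), hp2⟩

end Pool.Agent.L7h72.NQ
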